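import Mathlib
import Pool.Agent.PudOr.A1
import Pool.Agent.PudOr.A2
import Pool.Agent.PudOr.A3
import Pool.Agent.PudOr.A5a
import Pool.Agent.PudTal.Defs
import Pool.Agent.PudOpt.Defs

set_option autoImplicit false

/-!
# Oracles with requested certificates for NP statements

`hat act W` contains the free set `W.1` and those words `cw e w N` for which the value of the
function number `e` at `w` is in the complete language of NP and which are requested by `W.2`.
-/

namespace Pool.Agent.PudSat

open N68a2faeb N793a5b8e N487b59b3 Pool.Agent.Helper22 Pool.Agent.PudOr Pool.Agent.PudTal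
  Pool.Agent.PudOpt
open scoped Classical

/-- a world: the free set and the set of requests -/
abbrev World : Type := Oracle × Oracle

/-- agreement of worlds up to length `n` -/
def AgreeW (n : ℕ) (W W' : World) : Prop := Agree n W.1 W'.1 ∧ Agree n W.2 W'.2

/-- the code word for the value at `w` of the function number `e` -/
def cw (e : ℕ) (w : List Bool) (N : ℕ) : List Bool :=
  true :: cd (un e) (cd w (cd (un N) (un (2 * N * N + 2))))

/-- the value at `w` of the function number `e` is in the complete language of NP -/
def TrueC (act : Act) (e : ℕ) (w : List Bool) (N : ℕ) (C : Oracle) : Prop :=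
  QB (enumF e) w N ∧ ((enumF e).run (Xo act C) w).length ≤ N ∧
    ∃ u, KcP act ((enumF e).run (Xo act C) w) u C

/-- `C` consists of the free set and of the requested true code words -/
structure Hat (act : Act) (W : World) (C : Oracle) : Prop where
  nil : C [] = false
  gen : ∀ q, C (false :: q) = W.1 q
  cod : ∀ e w N, C (cw e w N) = true ↔ W.2 (cw e w N) = true ∧ TrueC act e w N C
  oth : ∀ q, (∀ e w N, true :: q ≠ cw e w N) → C (true :: q) = false

/-- the set with `Hat act W (hat act W)` -/
noncomputable def hat (act : Act) (W : World) : Oracle :=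
  if h : ∃ C, Hat act W C then h.choose else fun _ => false

/-! ## Conditions -/

/-- exactly one of the two types of words is present at the scale `j` -/
def One (A : Oracle) (j : ℕ) : Prop :=
  (∃ y : List Bool, y.length + 1 = sc j ∧ A (true :: y) = true) ↔
    ¬ ∃ y : List Bool, y.length + 1 = sc j ∧ A (false :: y) = true

/-- a condition: `m` protected families and all requests for the functions in `st`, from scale `J`
on; both sets are known below the length `sc J` -/
structure CondS where
  m : ℕ
  J : ℕ
  pos : List (List Bool)
  rq : List (List Bool)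
  st : List ℕ

instance : Countable CondS := by
  let F : CondS → ℕ × ℕ × List (List Bool) × List (List Bool) × List ℕ :=
    fun p => (p.m, p.J, p.pos, p.rq, p.st)
  have hF : Function.Injective F := by
    rintro ⟨m, J, pos, rq, st⟩ ⟨m', J', pos', rq', st'⟩ h
    simp only [F, Prod.mk.injEq] at h
    obtain ⟨rfl, rfl, rfl, rfl, rfl⟩ := h
    rfl
  exact hF.countable

instance : Nonempty CondS := ⟨⟨0, 0, [], [], []⟩⟩

/-- compatibility of the world `W` with the condition `p` -/
structure Comp (p : CondS) (W : World) : Prop where
  pos : ∀ q : List Bool, q.length < sc p.J → (W.1 q = true ↔ q ∈ p.pos)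
  rq : ∀ q : List Bool, q.length < sc p.J → (W.2 q = true ↔ q ∈ p.rq)
  st : ∀ e ∈ p.st, ∀ w N, sc p.J ≤ (cw e w N).length → W.2 (cw e w N) = true
  one : ∀ j, p.J ≤ j → fam j < p.m → One W.1 j

/-- generic worlds -/
structure Gen {ι : Type} (P : ι → List Bool → World → Prop) (Sn : ℕ → List Bool → World → Prop)
    (W : World) where
  p : ℕ → CondS
  comp : ∀ k, Comp (p k) W
  anti : ∀ k W', Comp (p (k + 1)) W' → Comp (p k) W'
  J_mono : ∀ k, (p k).J ≤ (p (k + 1)).J
  m_le : ∀ k, k ≤ (p k).m
  st_sub : ∀ k, ∀ e ∈ (p k).st, e ∈ (p (k + 1)).st
  force : ∀ i, (∀ x, P i x W) → ∃ k, ∀ W', Comp (p k) W' → ∀ x, P i x W'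
  on_sound : ∀ k, ∀ e ∈ (p k).st, ∀ W', Comp (p k) W' → ∀ w, Sn e w W'
  on_all : ∀ e, (∀ w, Sn e w W) → ∃ k, e ∈ (p k).st

/-- all values of the function number `e` are in the complete language, at `w` -/
def PSn (act : Act) (e : ℕ) (w : List Bool) (W : World) : Prop :=
  Kc act (hat act W) ((enumF e).run (Xo act (hat act W)) w) = true

/-! ## The languages -/

/-- the language of family `i`, from scale `J₀` on -/
noncomputable def tl (i J₀ : ℕ) (A : Oracle) : DecisionProblem := fun x =>
  decide (∃ j, J₀ ≤ j ∧ fam j = i ∧ x.length = sc j ∧
    ∃ y : List Bool, y.length + 1 = sc j ∧ A (true :: y) = true)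

/-- verifier of the language `tl i J₀` (`b = true`) and of its complement (`b = false`) -/
noncomputable def thT (i J₀ : ℕ) (b : Bool) (_ : Act) (v : List Bool) :
    Strat × (Oracle → Bool) :=
  (fun _ => if (cs v).length + 2 ≤ v.length then .inr (false :: b :: cs v) else .inl false,
   fun C => if (∃ j, J₀ ≤ j ∧ fam j = i ∧ (cf v).length = sc j) then
      decide ((cs v).length + 1 = (cf v).length) && C (false :: b :: cs v) else !b)

/-- what the p-optimal proof system checks on `v = (y, ((un e, w), t))` -/
def ChkS (act : Act) (v : List Bool) (C : Oracle) : Prop :=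
  let y := cf v
  let e := (cf (cf (cs v))).length
  let w := cs (cf (cs v))
  let N := (cs (cs v)).length
  QB (enumF e) w N ∧ (enumF e).run (Xo act C) w = y ∧ C (cw e w N) = true

/-- the functional of the p-optimal proof system, on `u = (v, padding)` -/
noncomputable def thS (act : Act) (u : List Bool) : Strat × (Oracle → Bool) :=
  let v := cf u
  let e := (cf (cf (cs v))).length
  let w := cs (cf (cs v))
  let N := (cs (cs v)).length
  (fun ans => if ans.length < N then act ((enumF e).query (w, ans)) else .inr (cw e w N),
   fun C => decide (ChkS act v C))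

/-! ## Strategies for UP languages -/

/-- on `Ω`, the value of `F` is determined by `n` adaptive questions, all with `okq` -/
def Det (Ω : Set Oracle) (okq : List Bool → Prop) (n : ℕ) {β : Type} (F : Oracle → β) : Prop :=
  ∃ σ : Strat, (∀ ans q, σ ans = .inr q → okq q) ∧
    ∀ C ∈ Ω, ∀ C' ∈ Ω, sAns σ C n = sAns σ C' n → F C = F C'

/-- the oracles from the worlds compatible with `c` -/
def Om (act : Act) (c : CondS) : Set Oracle := {C | ∃ W, Comp c W ∧ C = hat act W}

/-- the functional for the UP language of the verifier `e`, on `v = (x, padding)` -/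
noncomputable def thU (e : Ver) (c : CondS) (act : Act) (v : List Bool) :
    Strat × (Oracle → Bool) :=
  if h : Det (Om act c) (fun q => q.length ≤ v.length) v.length fun C => Acc act e (cf v) C then
    (h.choose, fun C => decide (∃ C' ∈ Om act c,
      sAns h.choose C' v.length = sAns h.choose C v.length ∧ Acc act e (cf v) C'))
  else (fun _ => .inl false, fun _ => false)

/-! ## The local statements -/

/-- `e` has at most one witness, at `x` -/
def PUq (act : Act) (e : Ver) (x : List Bool) (W : World) : Prop := Uniq act e x (hat act W)

/-- `e` presents a language of NP ∩ coNP, at `x` -/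
def PGood (act : Act) (e : Ver × Ver) (x : List Bool) (W : World) : Prop :=
  Acc act e.1 x (hat act W) ↔ ¬ Acc act e.2 x (hat act W)

/-- `f` reduces `tl i J₀` to the language presented by `e`, at `x` -/
def PRed (act : Act) (f : FN) (i J₀ : ℕ) (e : Ver × Ver) (x : List Bool) (W : World) : Prop :=
  (tl i J₀ W.1 x = true → Acc act e.1 (f.run (Xo act (hat act W)) x) (hat act W)) ∧
  (tl i J₀ W.1 x = false → Acc act e.2 (f.run (Xo act (hat act W)) x) (hat act W))

end Pool.Agent.PudSat
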