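import Mathlib
import Pool.Agent.PudSat.Defs

set_option autoImplicit false

/-!
# S1: existence and locality of `hat`
-/

namespace Pool.Agent.PudSat

open N68a2faeb N793a5b8e N487b59b3 Pool.Agent.Helper22 Pool.Agent.PudOr Pool.Agent.PudTal
  Pool.Agent.PudOpt
open scoped Classical

/-- a run with queries shorter than `N` depends only on the words shorter than `N` -/
theorem run_strict {act : Act} (hs : Short act) {α β : Type} [N487b59b3 α] [N487b59b3 β]
    (M : OracleProc α β) {a : α} {N : ℕ} (h : QB M a N) {C C' : Oracle}
    (hC : ∀ q : List Bool, q.length < N → C q = C' q) :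
    M.run (Xo act C) a = M.run (Xo act C') a := by
  refine run_used act M fun q hq => ?_
  obtain ⟨n, hn, hz⟩ := (mem_used act M C' a q).1 hq
  refine hC q ((hs _ _ hz).trans_lt (h.2 _ ?_))
  rw [OracleProc.answers_length]
  omega

theorem cw_inj {e e' : ℕ} {w w' : List Bool} {N N' : ℕ} (h : cw e w N = cw e' w' N') :
    e = e' ∧ w = w' ∧ N = N' := by
  have h0 : cd (un e) (cd w (cd (un N) (un (2 * N * N + 2)))) =
      cd (un e') (cd w' (cd (un N') (un (2 * N' * N' + 2)))) :=
    (List.cons.injEq _ _ _ _).mp h |>.2
  have h1 := congrArg cf h0
  have h2 := congrArg cs h0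
  rw [cf_cd, cf_cd] at h1
  rw [cs_cd, cs_cd] at h2
  have h3 := congrArg cf h2
  have h4 := congrArg cs h2
  rw [cf_cd, cf_cd] at h3
  rw [cs_cd, cs_cd] at h4
  have h5 := congrArg cf h4
  rw [cf_cd, cf_cd] at h5
  have k1 := congrArg List.length h1
  have k5 := congrArg List.length h5
  rw [un_length, un_length] at k1 k5
  exact ⟨k1, h3, k5⟩

theorem cw_length (e : ℕ) (w : List Bool) (N : ℕ) :
    (cw e w N).length = 2 * e + 2 * w.length + 2 * N * N + 2 * N + 6 := by
  unfold cw
  rw [List.length_cons, cd_length, cd_length, cd_length, un_length, un_length, un_length]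
  ring

theorem S1_KcP_strict {act : Act} (hs : Short act) (y u : List Bool) {C C' : Oracle}
    (hC : ∀ q : List Bool, q.length < y.length → C q = C' q) : KcP act y u C ↔ KcP act y u C' := by
  unfold KcP
  constructor
  · rintro ⟨h1, h2, h3⟩
    exact ⟨h1, h2, by rw [← run_strict hs _ h2 hC]; exact h3⟩
  · rintro ⟨h1, h2, h3⟩
    exact ⟨h1, h2, by rw [run_strict hs _ h2 hC]; exact h3⟩

theorem S1_TrueC_local {act : Act} (hs : Short act) (e : ℕ) (w : List Bool) (N : ℕ)
    {C C' : Oracle} (hC : ∀ q : List Bool, q.length < N → C q = C' q) :
    TrueC act e w N C ↔ TrueC act e w N C' := by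
  have key : ∀ {D D' : Oracle}, (∀ q : List Bool, q.length < N → D q = D' q) →
      TrueC act e w N D → TrueC act e w N D' := by
    rintro D D' hD ⟨h1, h2, u, h3⟩
    have h4 := run_strict hs (enumF e) h1 hD
    refine ⟨h1, by rw [← h4]; exact h2, u, ?_⟩
    rw [← h4]
    exact (S1_KcP_strict hs _ u fun q hq => hD q (hq.trans_le h2)).1 h3
  exact ⟨key hC, key fun q hq => (hC q hq).symm⟩

/-- one step of the recursion -/
noncomputable def S1step (act : Act) (W : World) (C : Oracle) : Oracle := fun q =>
  match q with
  | [] => false
  | false :: q' => W.1 q'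
  | true :: q' => decide (∃ e w N, true :: q' = cw e w N ∧ W.2 (cw e w N) = true ∧
      TrueC act e w N C)

theorem S1step_congr {act : Act} (hs : Short act) (W : World) {C C' : Oracle} (q : List Bool)
    (h : ∀ w : List Bool, w.length < q.length → C w = C' w) :
    S1step act W C q = S1step act W C' q := by
  match q, h with
  | [], _ => rfl
  | false :: _, _ => rfl
  | true :: q', h =>
    refine decide_eq_decide.2 ?_
    have key : ∀ e w N, true :: q' = cw e w N → (TrueC act e w N C ↔ TrueC act e w N C') := by
      intro e w N he
      refine S1_TrueC_local hs e w N fun v hv => h v ?_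
      rw [he, cw_length]
      omega
    constructor
    · rintro ⟨e, w, N, h1, h2, h3⟩
      exact ⟨e, w, N, h1, h2, (key e w N h1).1 h3⟩
    · rintro ⟨e, w, N, h1, h2, h3⟩
      exact ⟨e, w, N, h1, h2, (key e w N h1).2 h3⟩

/-- the approximations -/
noncomputable def S1seq (act : Act) (W : World) : ℕ → Oracle
  | 0 => fun _ => false
  | n + 1 => S1step act W (S1seq act W n)

theorem S1seq_stable {act : Act} (hs : Short act) (W : World) (n : ℕ) :
    ∀ (m : ℕ) (z : List Bool), z.length < n → z.length < m →
      S1seq act W n z = S1seq act W m z := by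
  induction n with
  | zero => intro m z h; omega
  | succ n ih =>
    intro m z hn hm
    obtain ⟨m, rfl⟩ : ∃ m', m = m' + 1 := ⟨m - 1, by omega⟩
    change S1step act W (S1seq act W n) z = S1step act W (S1seq act W m) z
    refine S1step_congr hs W z fun w hw => ih m w (by omega) (by omega)

theorem exists_hat {act : Act} (hs : Short act) (W : World) : ∃ C, Hat act W C := by
  let C : Oracle := fun z => S1seq act W (z.length + 1) z
  have hC : ∀ z, C z = S1step act W C z := by
    intro z
    change S1step act W (S1seq act W z.length) z = _
    refine S1step_congr hs W z fun w hw => ?_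
    exact S1seq_stable hs W _ _ w hw (Nat.lt_succ_self _)
  refine ⟨C, hC [], fun q => hC (false :: q), fun e w N => ?_, fun q hq => ?_⟩
  · rw [hC]
    have h1 : S1step act W C (cw e w N) =
        decide (∃ e' w' N', cw e w N = cw e' w' N' ∧ W.2 (cw e' w' N') = true ∧
          TrueC act e' w' N' C) := rfl
    rw [h1, decide_eq_true_iff]
    constructor
    · rintro ⟨e', w', N', h2, h3, h4⟩
      obtain ⟨rfl, rfl, rfl⟩ := cw_inj h2
      exact ⟨h3, h4⟩
    · rintro ⟨h3, h4⟩
      exact ⟨e, w, N, rfl, h3, h4⟩
  · rw [hC]
    have h1 : S1step act W C (true :: q) =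
        decide (∃ e' w' N', true :: q = cw e' w' N' ∧ W.2 (cw e' w' N') = true ∧
          TrueC act e' w' N' C) := rfl
    rw [h1, decide_eq_false_iff_not]
    rintro ⟨e', w', N', h2, _⟩
    exact hq e' w' N' h2

theorem Hat.agree {act : Act} (hs : Short act) {W W' : World} {C C' : Oracle} {n : ℕ}
    (h : Hat act W C) (h' : Hat act W' C') (hW : AgreeW n W W') : Agree n C C' := by
  have key : ∀ k : ℕ, ∀ q : List Bool, q.length = k → q.length ≤ n → C q = C' q := by
    intro k
    induction k using Nat.strong_induction_on with
    | _ k ih =>
      intro q hk hq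
      match q, hk, hq with
      | [], _, _ => rw [h.nil, h'.nil]
      | false :: q', _, hq =>
        rw [h.gen, h'.gen]
        refine hW.1 q' ?_
        rw [List.length_cons] at hq
        omega
      | true :: q', hk, hq =>
        by_cases hex : ∃ e w N, true :: q' = cw e w N
        · obtain ⟨e, w, N, he⟩ := hex
          rw [he, Bool.eq_iff_iff, h.cod, h'.cod]
          have h1 : W.2 (cw e w N) = W'.2 (cw e w N) := hW.2 _ (by rw [← he]; exact hq)
          have h2 : TrueC act e w N C ↔ TrueC act e w N C' := by
            refine S1_TrueC_local hs e w N fun v hv => ih v.length ?_ v rfl ?_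
            · rw [← hk, he, cw_length]
              omega
            · rw [he, cw_length] at hq
              omega
          rw [h1, h2]
        · push Not at hex
          rw [h.oth q' hex, h'.oth q' hex]
  exact fun q hq => key q.length q rfl hq

theorem hat_spec {act : Act} (hs : Short act) (W : World) : Hat act W (hat act W) := by
  have h := exists_hat hs W
  unfold hat
  rw [dif_pos h]
  exact h.choose_spec

theorem hat_agree {act : Act} (hs : Short act) {W W' : World} {n : ℕ} (h : AgreeW n W W') :
    Agree n (hat act W) (hat act W') :=
  Hat.agree hs (hat_spec hs W) (hat_spec hs W') h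

theorem short_trunc {act : Act} (hs : Short act) (n : ℕ) : Short (trunc act n) := by
  intro z q hz
  unfold trunc at hz
  split_ifs at hz with h
  exact hs z q hz

/-- cutting the action function at length `n` does not change the words of length at most `n` -/
theorem hat_trunc {act : Act} (hs : Short act) (W : World) (n : ℕ) :
    Agree n (hat (trunc act n) W) (hat act W) := by
  have h := hat_spec (short_trunc hs n) W
  have h' := hat_spec hs W
  set C := hat (trunc act n) W with hC
  set C' := hat act W with hC'
  have key : ∀ k : ℕ, ∀ q : List Bool, q.length = k → q.length ≤ n → C q = C' q := by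
    intro k
    induction k using Nat.strong_induction_on with
    | _ k ih =>
      intro q hk hq
      match q, hk, hq with
      | [], _, _ => rw [h.nil, h'.nil]
      | false :: q', _, hq => rw [h.gen, h'.gen]
      | true :: q', hk, hq =>
        by_cases hex : ∃ e w N, true :: q' = cw e w N
        · obtain ⟨e, w, N, he⟩ := hex
          rw [he, Bool.eq_iff_iff, h.cod, h'.cod]
          have hlen : N < (cw e w N).length := by
            rw [cw_length]; omega
          rw [he] at hk hq
          have hNn : N ≤ n := by omega
          have hag : ∀ v : List Bool, v.length < N → C v = C' v := fun v hv =>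
            ih v.length (by omega) v rfl (by omega)
          have h2 : TrueC (trunc act n) e w N C ↔ TrueC act e w N C' := by
            rw [← S1_TrueC_local hs e w N hag]
            unfold TrueC
            have hrun : QB (enumF e) w N →
                (enumF e).run (Xo (trunc act n) C) w = (enumF e).run (Xo act C) w := fun hQ =>
              run_trunc act _ (hQ.mono hNn) C
            constructor
            · rintro ⟨h1, h3, u, h4, h5, h6⟩
              rw [hrun h1] at h3 h4 h5 h6
              refine ⟨h1, h3, u, h4, h5, ?_⟩
              rw [← run_trunc act _ (h5.mono (h3.trans hNn)) C]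
              exact h6
            · rintro ⟨h1, h3, u, h4, h5, h6⟩
              rw [hrun h1]
              refine ⟨h1, h3, u, h4, h5, ?_⟩
              rw [run_trunc act _ (h5.mono (h3.trans hNn)) C]
              exact h6
          rw [h2]
        · push Not at hex
          rw [h.oth q' hex, h'.oth q' hex]
  exact fun q hq => key q.length q rfl hq

end Pool.Agent.PudSat
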