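import Mathlib
import Pool.Agent.PudSat.S1

set_option autoImplicit false

/-!
# S2: generic worlds
-/

namespace Pool.Agent.PudSat

open N68a2faeb N793a5b8e N487b59b3 Pool.Agent.Helper22 Pool.Agent.PudOr Pool.Agent.PudTal
  Pool.Agent.PudOpt
open scoped Classical

theorem S2_one_congr {A A' : Oracle} {j : ℕ} (h : ∀ q : List Bool, q.length = sc j → A q = A' q)
    (hA : One A j) : One A' j := by
  have h2 : ∀ b : Bool, (∃ y : List Bool, y.length + 1 = sc j ∧ A (b :: y) = true) ↔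
      ∃ y : List Bool, y.length + 1 = sc j ∧ A' (b :: y) = true := by
    intro b
    constructor
    · rintro ⟨y, hy, hy'⟩
      exact ⟨y, hy, (h (b :: y) (by rw [List.length_cons]; exact hy)).symm.trans hy'⟩
    · rintro ⟨y, hy, hy'⟩
      exact ⟨y, hy, (h (b :: y) (by rw [List.length_cons]; exact hy)).trans hy'⟩
  unfold One at hA ⊢
  rw [← h2 true, ← h2 false]
  exact hA

theorem S2_list (A : Oracle) (n : ℕ) : ∃ l : List (List Bool),
    ∀ q : List Bool, q ∈ l ↔ q.length < n ∧ A q = true := by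
  have hfin : {q : List Bool | q.length < n ∧ A q = true}.Finite :=
    (List.finite_length_lt Bool n).subset fun q hq => hq.1
  refine ⟨hfin.toFinset.toList, fun q => ?_⟩
  rw [Finset.mem_toList, Set.Finite.mem_toFinset]
  exact Iff.rfl

/-- raising the scale bound -/
theorem S2_raiseJ (p : CondS) (W₀ : World) (h₀ : Comp p W₀) (J' : ℕ) (hJ : p.J ≤ J') :
    ∃ p' : CondS, p'.m = p.m ∧ p'.J = J' ∧ p'.st = p.st ∧ Comp p' W₀ ∧
      (∀ W', Comp p' W' → Comp p W') ∧
      ∀ W', Comp p' W' → ∀ q : List Bool, q.length < sc J' → W'.1 q = W₀.1 q ∧ W'.2 q = W₀.2 q := by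
  obtain ⟨l₁, hl₁⟩ := S2_list W₀.1 (sc J')
  obtain ⟨l₂, hl₂⟩ := S2_list W₀.2 (sc J')
  have hle : sc p.J ≤ sc J' := sc_strictMono.monotone hJ
  have hagree : ∀ W', Comp (⟨p.m, J', l₁, l₂, p.st⟩ : CondS) W' →
      ∀ q : List Bool, q.length < sc J' → W'.1 q = W₀.1 q ∧ W'.2 q = W₀.2 q := by
    intro W' hW' q hq
    have h1 := hW'.pos q hq
    have h2 := hW'.rq q hq
    rw [show (⟨p.m, J', l₁, l₂, p.st⟩ : CondS).pos = l₁ from rfl, hl₁] at h1
    rw [show (⟨p.m, J', l₁, l₂, p.st⟩ : CondS).rq = l₂ from rfl, hl₂] at h2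
    exact ⟨Bool.eq_iff_iff.2 (h1.trans ⟨fun h => h.2, fun h => ⟨hq, h⟩⟩),
      Bool.eq_iff_iff.2 (h2.trans ⟨fun h => h.2, fun h => ⟨hq, h⟩⟩)⟩
  refine ⟨⟨p.m, J', l₁, l₂, p.st⟩, rfl, rfl, rfl, ⟨?_, ?_, ?_, ?_⟩, ?_, hagree⟩
  · intro q hq
    rw [show (⟨p.m, J', l₁, l₂, p.st⟩ : CondS).pos = l₁ from rfl, hl₁]
    exact ⟨fun h => ⟨hq, h⟩, fun h => h.2⟩
  · intro q hq
    rw [show (⟨p.m, J', l₁, l₂, p.st⟩ : CondS).rq = l₂ from rfl, hl₂]
    exact ⟨fun h => ⟨hq, h⟩, fun h => h.2⟩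
  · intro e he w N hN
    exact h₀.st e he w N (hle.trans hN)
  · intro j hj
    exact h₀.one j (hJ.trans hj)
  · intro W' hW'
    have hag := hagree W' hW'
    refine ⟨?_, ?_, ?_, ?_⟩
    · intro q hq
      rw [(hag q (hq.trans_le hle)).1]
      exact h₀.pos q hq
    · intro q hq
      rw [(hag q (hq.trans_le hle)).2]
      exact h₀.rq q hq
    · intro e he w N hN
      by_cases h1 : sc J' ≤ (cw e w N).length
      · exact hW'.st e he w N h1
      · rw [(hag _ (not_le.1 h1)).2]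
        exact h₀.st e he w N hN
    · intro j hj hf
      by_cases hjJ : J' ≤ j
      · exact hW'.one j hjJ hf
      · have hlt : sc j < sc J' := sc_strictMono (not_le.1 hjJ)
        exact S2_one_congr (fun q hq => (hag q (hq ▸ hlt)).1.symm) (h₀.one j hj hf)

/-- the default set from length `n` on -/
noncomputable def S2_dflt (n : ℕ) (A : Oracle) : Oracle := fun q =>
  if q.length < n then A q else decide (∀ b ∈ q, b = false)

theorem S2_dflt_ok (n : ℕ) (A : Oracle) (j : ℕ) (hj : n ≤ sc j) : One (S2_dflt n A) j := by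
  have h1 : ¬ ∃ y : List Bool, y.length + 1 = sc j ∧ S2_dflt n A (true :: y) = true := by
    rintro ⟨y, hy, hy'⟩
    unfold S2_dflt at hy'
    rw [if_neg (by rw [List.length_cons]; omega), decide_eq_true_eq] at hy'
    exact absurd (hy' true (List.mem_cons_self)) (by decide)
  have h2 : ∃ y : List Bool, y.length + 1 = sc j ∧ S2_dflt n A (false :: y) = true := by
    have hpos := le_sc j
    refine ⟨List.replicate (sc j - 1) false, by rw [List.length_replicate]; omega, ?_⟩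
    unfold S2_dflt
    rw [if_neg (by rw [List.length_cons, List.length_replicate]; omega), decide_eq_true_eq]
    intro b hb
    rcases List.mem_cons.1 hb with hb | hb
    · exact hb
    · exact List.eq_of_mem_replicate hb
  exact ⟨fun h => (h1 h).elim, fun h => (h h2).elim⟩

/-- raising the number of protected families -/
theorem S2_raisem (p : CondS) (W₀ : World) (h₀ : Comp p W₀) (m' : ℕ) (hm : p.m ≤ m') :
    Comp (⟨m', p.J, p.pos, p.rq, p.st⟩ : CondS) (S2_dflt (sc p.J) W₀.1, W₀.2) ∧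
      ∀ W', Comp (⟨m', p.J, p.pos, p.rq, p.st⟩ : CondS) W' → Comp p W' := by
  refine ⟨⟨?_, ?_, ?_, ?_⟩, ?_⟩
  · intro q hq
    have h1 : S2_dflt (sc p.J) W₀.1 q = W₀.1 q := if_pos hq
    show S2_dflt (sc p.J) W₀.1 q = true ↔ q ∈ p.pos
    rw [h1]
    exact h₀.pos q hq
  · intro q hq
    exact h₀.rq q hq
  · intro e he w N hN
    exact h₀.st e he w N hN
  · intro j hj _
    exact S2_dflt_ok (sc p.J) W₀.1 j (sc_strictMono.monotone hj)
  · intro W' hW'
    exact ⟨hW'.pos, hW'.rq, hW'.st, fun j hj hf => hW'.one j hj (lt_of_lt_of_le hf hm)⟩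

/-- one more function with all requests -/
theorem S2_raisest (p : CondS) (W₀ : World) (h₀ : Comp p W₀) (e : ℕ) :
    (∃ W, Comp (⟨p.m, p.J, p.pos, p.rq, e :: p.st⟩ : CondS) W) ∧
      ∀ W', Comp (⟨p.m, p.J, p.pos, p.rq, e :: p.st⟩ : CondS) W' → Comp p W' := by
  refine ⟨⟨(W₀.1, fun q => decide (W₀.2 q = true ∨
    (sc p.J ≤ q.length ∧ ∃ w N, q = cw e w N))), ⟨?_, ?_, ?_, ?_⟩⟩, ?_⟩
  · intro q hq
    exact h₀.pos q hq
  · intro q hq
    have h1 : q.length < sc p.J := hq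
    show decide (W₀.2 q = true ∨ (sc p.J ≤ q.length ∧ ∃ w N, q = cw e w N)) = true ↔ q ∈ p.rq
    rw [decide_eq_true_eq]
    constructor
    · rintro (h | h)
      · exact (h₀.rq q hq).1 h
      · omega
    · intro h
      exact Or.inl ((h₀.rq q hq).2 h)
  · intro e' he' w N hN
    show decide (W₀.2 (cw e' w N) = true ∨
      (sc p.J ≤ (cw e' w N).length ∧ ∃ w' N', cw e' w N = cw e w' N')) = true
    rw [decide_eq_true_eq]
    rcases List.mem_cons.1 he' with h | h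
    · subst h
      exact Or.inr ⟨hN, w, N, rfl⟩
    · exact Or.inl (h₀.st e' h w N hN)
  · intro j hj hf
    exact h₀.one j hj hf
  · intro W' hW'
    exact ⟨hW'.pos, hW'.rq, fun e' he' => hW'.st e' (List.mem_cons_of_mem _ he'), hW'.one⟩

/-- a local statement can be decided by raising the scale bound -/
theorem S2_decide (Q : List Bool → World → Prop)
    (hQ : ∀ x, ∃ n, ∀ W W', AgreeW n W W' → (Q x W ↔ Q x W')) (p : CondS)
    (hp : ∃ W, Comp p W) :
    ∃ p' : CondS, (∃ W, Comp p' W) ∧ (∀ W', Comp p' W' → Comp p W') ∧ p.J < p'.J ∧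
      p'.st = p.st ∧
      ((∀ W', Comp p' W' → ∀ x, Q x W') ∨ ∃ x, ∀ W', Comp p' W' → ¬ Q x W') := by
  by_cases hc : ∃ W₀, Comp p W₀ ∧ ∃ x, ¬ Q x W₀
  · obtain ⟨W₀, h₀, x, hx⟩ := hc
    obtain ⟨n, hn⟩ := hQ x
    obtain ⟨p', -, hJ, hst, hc', hsub, hag⟩ := S2_raiseJ p W₀ h₀ (max (p.J + 1) n) (by omega)
    refine ⟨p', ⟨W₀, hc'⟩, hsub, by omega, hst, Or.inr ⟨x, fun W' hW' hQ' => hx ?_⟩⟩
    have hle := le_sc (max (p.J + 1) n)
    rw [← hn W' W₀ ?_]
    · exact hQ'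
    · exact ⟨fun q hq => (hag W' hW' q (by omega)).1, fun q hq => (hag W' hW' q (by omega)).2⟩
  · push Not at hc
    obtain ⟨W₀, h₀⟩ := hp
    obtain ⟨p', -, hJ, hst, hc', hsub, -⟩ := S2_raiseJ p W₀ h₀ (p.J + 1) (by omega)
    exact ⟨p', ⟨W₀, hc'⟩, hsub, by omega, hst, Or.inl fun W' hW' x => hc W' (hsub W' hW') x⟩

/-- the step of the construction -/
theorem S2_step (Q S : List Bool → World → Prop)
    (hQ : ∀ x, ∃ n, ∀ W W', AgreeW n W W' → (Q x W ↔ Q x W'))
    (hS : ∀ x, ∃ n, ∀ W W', AgreeW n W W' → (S x W ↔ S x W')) (k : ℕ) (p : CondS)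
    (hp : ∃ W, Comp p W) :
    ∃ p' : CondS, (∃ W, Comp p' W) ∧ (∀ W', Comp p' W' → Comp p W') ∧ p.J < p'.J ∧
      k + 1 ≤ p'.m ∧ (∀ e ∈ p.st, e ∈ p'.st) ∧
      ((∀ W', Comp p' W' → ∀ x, Q x W') ∨ ∃ x, ∀ W', Comp p' W' → ¬ Q x W') ∧
      (k ∈ p'.st ∨ ∃ x, ∀ W', Comp p' W' → ¬ S x W') ∧
      (∀ e ∈ p'.st, e ∈ p.st ∨ (e = k ∧ ∀ W', Comp p' W' → ∀ x, S x W')) := by
  obtain ⟨p₁, hp₁, hsub₁, hJ₁, hst₁, hdec⟩ := S2_decide Q hQ p hp
  obtain ⟨p₂, hp₂, hsub₂, hJ₂, hst₂, hdec₂⟩ := S2_decide S hS p₁ hp₁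
  -- the requests
  have h3 : ∃ p₃ : CondS, (∃ W, Comp p₃ W) ∧ (∀ W', Comp p₃ W' → Comp p₂ W') ∧ p₃.J = p₂.J ∧
      (∀ e ∈ p.st, e ∈ p₃.st) ∧ (k ∈ p₃.st ∨ ∃ x, ∀ W', Comp p₃ W' → ¬ S x W') ∧
      (∀ e ∈ p₃.st, e ∈ p.st ∨ (e = k ∧ ∀ W', Comp p₃ W' → ∀ x, S x W')) := by
    rcases hdec₂ with hd | hd
    · obtain ⟨W₀, h₀⟩ := hp₂
      obtain ⟨h4, h5⟩ := S2_raisest p₂ W₀ h₀ k
      refine ⟨⟨p₂.m, p₂.J, p₂.pos, p₂.rq, k :: p₂.st⟩, h4, h5, rfl, ?_, Or.inl ?_, ?_⟩
      · intro e he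
        refine List.mem_cons_of_mem _ ?_
        rw [hst₂, hst₁]
        exact he
      · exact List.mem_cons_self
      · intro e he
        rcases List.mem_cons.1 he with h | h
        · exact Or.inr ⟨h, fun W' hW' => hd W' (h5 W' hW')⟩
        · rw [hst₂, hst₁] at h
          exact Or.inl h
    · refine ⟨p₂, hp₂, fun _ h => h, rfl, ?_, Or.inr hd, ?_⟩
      · intro e he
        rw [hst₂, hst₁]
        exact he
      · intro e he
        rw [hst₂, hst₁] at he
        exact Or.inl he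
  obtain ⟨p₃, ⟨W₃, hW₃⟩, hsub₃, hJ₃, hst₃, hd₃, hn₃⟩ := h3
  obtain ⟨hc4, hsub4⟩ := S2_raisem p₃ W₃ hW₃ (max p₃.m (k + 1)) (le_max_left _ _)
  refine ⟨⟨max p₃.m (k + 1), p₃.J, p₃.pos, p₃.rq, p₃.st⟩, ⟨_, hc4⟩,
    fun W' hW' => hsub₁ W' (hsub₂ W' (hsub₃ W' (hsub4 W' hW'))), ?_, le_max_right _ _, hst₃, ?_,
    ?_, ?_⟩
  · show p.J < p₃.J
    omega
  · rcases hdec with hd | ⟨x, hx⟩
    · exact Or.inl fun W' hW' => hd W' (hsub₂ W' (hsub₃ W' (hsub4 W' hW')))
    · exact Or.inr ⟨x, fun W' hW' => hx W' (hsub₂ W' (hsub₃ W' (hsub4 W' hW')))⟩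
  · rcases hd₃ with hd | ⟨x, hx⟩
    · exact Or.inl hd
    · exact Or.inr ⟨x, fun W' hW' => hx W' (hsub4 W' hW')⟩
  · intro e he
    rcases hn₃ e he with h | ⟨h, h'⟩
    · exact Or.inl h
    · exact Or.inr ⟨h, fun W' hW' => h' W' (hsub4 W' hW')⟩

theorem exists_gen {ι : Type} [Countable ι] (P : ι → List Bool → World → Prop)
    (hP : ∀ i x, ∃ n, ∀ W W', AgreeW n W W' → (P i x W ↔ P i x W'))
    (Sn : ℕ → List Bool → World → Prop)
    (hSn : ∀ i x, ∃ n, ∀ W W', AgreeW n W W' → (Sn i x W ↔ Sn i x W')) :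
    ∃ W, Nonempty (Gen P Sn W) := by
  obtain ⟨enc, henc⟩ := Countable.exists_injective_nat ι
  let Q : ℕ → List Bool → World → Prop := fun k x C => ∀ i, enc i = k → P i x C
  have hQ : ∀ k x, ∃ n, ∀ W W', AgreeW n W W' → (Q k x W ↔ Q k x W') := by
    intro k x
    by_cases hk : ∃ i, enc i = k
    · obtain ⟨i, rfl⟩ := hk
      obtain ⟨n, hn⟩ := hP i x
      refine ⟨n, fun C C' hag => ?_⟩
      constructor
      · intro h i' hi'
        have := henc hi'
        subst this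
        exact (hn C C' hag).1 (h _ rfl)
      · intro h i' hi'
        have := henc hi'
        subst this
        exact (hn C C' hag).2 (h _ rfl)
    · refine ⟨0, fun C C' _ => ?_⟩
      exact ⟨fun _ i hi => (hk ⟨i, hi⟩).elim, fun _ i hi => (hk ⟨i, hi⟩).elim⟩
  choose step hs1 hs2 hs3 hs4 hs5 hs6 hs7 hs8 using
    fun (k : ℕ) (p : {p : CondS // ∃ W, Comp p W}) =>
      S2_step (Q k) (Sn k) (hQ k) (hSn k) k p.1 p.2
  have h0 : ∃ W, Comp (⟨0, 0, [], [], []⟩ : CondS) W := by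
    refine ⟨(fun _ => false, fun _ => false), ?_, ?_, ?_, ?_⟩
    · intro q _
      simp
    · intro q _
      simp
    · intro e he
      simp at he
    · intro j _ hf
      exact absurd hf (Nat.not_lt_zero _)
  let s : ℕ → {p : CondS // ∃ W, Comp p W} := fun n =>
    Nat.rec ⟨⟨0, 0, [], [], []⟩, h0⟩ (fun k p => ⟨step k p, hs1 k p⟩) n
  have hs : ∀ k, (s (k + 1)).1 = step k (s k) := fun k => rfl
  have hanti1 : ∀ k W', Comp (s (k + 1)).1 W' → Comp (s k).1 W' := by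
    intro k W' h
    rw [hs] at h
    exact hs2 k (s k) W' h
  have hanti : ∀ a b W', a ≤ b → Comp (s b).1 W' → Comp (s a).1 W' := by
    intro a b W' hab
    induction hab with
    | refl => exact id
    | step _ ih => exact fun h => ih (hanti1 _ _ h)
  have hJ1 : ∀ k, (s k).1.J < (s (k + 1)).1.J := by
    intro k
    rw [hs]
    exact hs3 k (s k)
  have hJ : ∀ k, k ≤ (s k).1.J := by
    intro k
    induction k with
    | zero => exact Nat.zero_le _
    | succ k ih =>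
      have := hJ1 k
      omega
  have hm : ∀ k, k ≤ (s k).1.m := by
    intro k
    cases k with
    | zero => exact Nat.zero_le _
    | succ k =>
      rw [hs]
      exact hs4 k (s k)
  let W : World := (fun q => decide (q ∈ (s (q.length + 1)).1.pos),
    fun q => decide (q ∈ (s (q.length + 1)).1.rq))
  have hWag : ∀ K W', Comp (s K).1 W' → ∀ q : List Bool, q.length + 1 ≤ K →
      W'.1 q = W.1 q ∧ W'.2 q = W.2 q := by
    intro K W' hW' q hq
    have hlt : q.length < sc (s (q.length + 1)).1.J := by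
      have h2 := hJ (q.length + 1)
      have h3 := le_sc (s (q.length + 1)).1.J
      omega
    have h1 := (hanti _ K W' hq hW').pos q hlt
    have h1' := (hanti _ K W' hq hW').rq q hlt
    have h2 : W.1 q = true ↔ q ∈ (s (q.length + 1)).1.pos := decide_eq_true_iff
    have h2' : W.2 q = true ↔ q ∈ (s (q.length + 1)).1.rq := decide_eq_true_iff
    exact ⟨Bool.eq_iff_iff.2 (h1.trans h2.symm), Bool.eq_iff_iff.2 (h1'.trans h2'.symm)⟩
  have hWcomp : ∀ k, Comp (s k).1 W := by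
    intro k
    refine ⟨?_, ?_, ?_, ?_⟩
    · intro q hq
      obtain ⟨W', hW'⟩ := (s (max k (q.length + 1))).2
      rw [← (hWag _ W' hW' q (le_max_right _ _)).1]
      exact (hanti k _ W' (le_max_left _ _) hW').pos q hq
    · intro q hq
      obtain ⟨W', hW'⟩ := (s (max k (q.length + 1))).2
      rw [← (hWag _ W' hW' q (le_max_right _ _)).2]
      exact (hanti k _ W' (le_max_left _ _) hW').rq q hq
    · intro e he w N hN
      obtain ⟨W', hW'⟩ := (s (max k ((cw e w N).length + 1))).2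
      rw [← (hWag _ W' hW' _ (le_max_right _ _)).2]
      exact (hanti k _ W' (le_max_left _ _) hW').st e he w N hN
    · intro j hj hf
      obtain ⟨W', hW'⟩ := (s (max k (sc j + 1))).2
      have hag : ∀ q : List Bool, q.length = sc j → W'.1 q = W.1 q := fun q hq =>
        (hWag _ W' hW' q (by rw [hq]; exact le_max_right _ _)).1
      exact S2_one_congr hag ((hanti k _ W' (le_max_left _ _) hW').one j hj hf)
  refine ⟨W, ⟨⟨fun k => (s k).1, hWcomp, hanti1, fun k => (hJ1 k).le, hm, ?_, ?_, ?_, ?_⟩⟩⟩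
  · intro k e he
    show e ∈ (s (k + 1)).1.st
    rw [hs]
    exact hs5 k (s k) e he
  · intro i hi
    refine ⟨enc i + 1, fun C' hC' x => ?_⟩
    have hd := hs6 (enc i) (s (enc i))
    rw [← hs] at hd
    rcases hd with hd | ⟨x, hx⟩
    · exact hd C' hC' x i rfl
    · exact (hx W (hWcomp (enc i + 1)) fun i' hi' => by
        have := henc hi'
        subst this
        exact hi x).elim
  · intro k
    induction k with
    | zero =>
      intro e he
      exact absurd he (List.not_mem_nil)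
    | succ k ih =>
      intro e he W' hW' w
      have he' : e ∈ (s (k + 1)).1.st := he
      have hW'' : Comp (s (k + 1)).1 W' := hW'
      rw [hs] at he' hW''
      rcases hs8 k (s k) e he' with h | ⟨h, h'⟩
      · exact ih e h W' (hs2 k (s k) W' hW'') w
      · rw [h]
        exact h' W' hW'' w
  · intro e he
    refine ⟨e + 1, ?_⟩
    show e ∈ (s (e + 1)).1.st
    rw [hs]
    rcases hs7 e (s e) with h | ⟨x, hx⟩
    · exact h
    · exact (hx W (hWcomp (e + 1)) (he x)).elim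

end Pool.Agent.PudSat
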