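import Mathlib
import Pool.Agent.PudSat.S1
import Pool.Agent.PudTal.T3

set_option autoImplicit false

/-!
# S3: the p-optimal proof system
-/

namespace Pool.Agent.PudSat

open N68a2faeb N793a5b8e N487b59b3 Pool.Agent.Helper22 Pool.Agent.PudOr Pool.Agent.PudTal
  Pool.Agent.PudOpt
open scoped Classical

theorem S3_cfs_length_le (s : List Bool) : (cf s).length + (cs s).length ≤ s.length := by
  induction s using cf.induct with
  | case1 b l ih => simp only [cf, cs, List.length_cons]; omega
  | case2 s h =>
    rcases s with _ | ⟨a, _ | ⟨b, l⟩⟩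
    · simp [cf, cs]
    · cases a <;> simp [cf, cs]
    · cases a
      · simp [cf, cs]
      · exact absurd rfl (h b l)

theorem S3_ChkS_trunc (act : Act) (v : List Bool) (C : Oracle) {M : ℕ} (h : v.length ≤ M) :
    ChkS (trunc act M) v C ↔ ChkS act v C := by
  have h1 := S3_cfs_length_le v
  have h2 := S3_cfs_length_le (cs v)
  have hN : (cs (cs v)).length ≤ M := by omega
  unfold ChkS
  simp only
  constructor
  · rintro ⟨a1, a2, a3⟩
    refine ⟨a1, ?_, a3⟩
    rw [run_trunc act _ (a1.mono hN)] at a2
    exact a2
  · rintro ⟨a1, a2, a3⟩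
    refine ⟨a1, ?_, a3⟩
    rw [run_trunc act _ (a1.mono hN)]
    exact a2

theorem S3_sAns_length (σ : Strat) (C : Oracle) (n : ℕ) : (sAns σ C n).length = n := by
  induction n with
  | zero => rfl
  | succ n ih => rw [sAns, List.length_cons, ih]

theorem S3_sAns_drop (σ : Strat) (C : Oracle) (m k : ℕ) :
    (sAns σ C (m + k)).drop k = sAns σ C m := by
  induction k with
  | zero => rfl
  | succ k ih => rw [← add_assoc, sAns, List.drop_succ_cons, ih]

theorem S3_sAns_le (σ : Strat) {C C' : Oracle} {n m : ℕ} (hm : m ≤ n)
    (h : sAns σ C n = sAns σ C' n) : sAns σ C m = sAns σ C' m := by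
  obtain ⟨k, rfl⟩ := Nat.exists_eq_add_of_le hm
  rw [← S3_sAns_drop σ C m k, ← S3_sAns_drop σ C' m k, h]

/-- as long as the strategy follows the procedure, the answers are those of the procedure -/
theorem S3_sAns_answers (act : Act) {β : Type} [N487b59b3 β] (f : OracleProc (List Bool) β)
    (w : List Bool) (N : ℕ) (q : List Bool) (C : Oracle) {n : ℕ} (hn : n ≤ N) :
    sAns (fun ans => if ans.length < N then act (f.query (w, ans)) else .inr q) C n =
      f.answers (Xo act C) w n := by
  induction n with
  | zero => rfl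
  | succ n ih =>
    rw [sAns, OracleProc.answers, ih (by omega)]
    simp only [OracleProc.answers_length]
    rw [if_pos (by omega)]
    rfl

theorem chkS_run {act : Act} (hs : Short act) {D : OracleProc (List Bool) Bool}
    (hD : Drives act D thS) (C : Oracle) (v : List Bool) :
    D.run (Xo act C) (cd v (un (16 * (v.length + 1) * (v.length + 1)))) = true ↔
      ChkS act v C := by
  set u := cd v (un (16 * (v.length + 1) * (v.length + 1))) with hu
  have hul : u.length = 2 * v.length + 1 + 16 * (v.length + 1) * (v.length + 1) := by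
    rw [hu, cd_length, un_length]
  have hcf : cf u = v := by rw [hu, cf_cd]
  have l1 := S3_cfs_length_le v
  have l2 := S3_cfs_length_le (cs v)
  have l3 := S3_cfs_length_le (cf (cs v))
  have l4 := S3_cfs_length_le (cf (cf (cs v)))
  have hN1 : (cs (cs v)).length ≤ v.length := by omega
  have hbig : v.length + 1 ≤ 16 * (v.length + 1) * (v.length + 1) := by nlinarith
  have hcw : (cw (cf (cf (cs v))).length (cs (cf (cs v))) (cs (cs v)).length).length ≤
      u.length := by
    rw [cw_length, hul]
    have h1 : (cs (cs v)).length * (cs (cs v)).length ≤ v.length * v.length :=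
      Nat.mul_le_mul hN1 hN1
    nlinarith
  have hth : ∀ act' : Act, thS act' u =
      (fun ans => if ans.length < (cs (cs v)).length then
          act' ((enumF (cf (cf (cs v))).length).query (cs (cf (cs v)), ans))
        else .inr (cw (cf (cf (cs v))).length (cs (cf (cs v))) (cs (cs v)).length),
        fun C => decide (ChkS act' v C)) := by
    intro act'
    simp only [thS, hcf]
  have h := hD C u (by
    intro ans q h
    rw [hth] at h
    simp only at h
    split_ifs at h with h1
    · simp only [trunc] at h
      split_ifs at h with h2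
      exact (hs _ _ h).trans h2.le
    · simp only [Sum.inr.injEq] at h
      subst h
      exact hcw) (by
    intro C' h
    rw [hth] at h ⊢
    simp only at h ⊢
    have hNu : (cs (cs v)).length + 1 ≤ u.length := by omega
    have e1 := S3_sAns_le _ (show (cs (cs v)).length ≤ u.length by omega) h
    rw [S3_sAns_answers _ _ _ _ _ _ le_rfl, S3_sAns_answers _ _ _ _ _ _ le_rfl] at e1
    have e2 := S3_sAns_le _ hNu h
    rw [sAns, sAns, List.cons.injEq] at e2
    have e3 := e2.1
    simp only [S3_sAns_length, lt_irrefl, if_false, look] at e3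
    refine decide_eq_decide.2 ?_
    unfold ChkS
    simp only
    rw [e3]
    refine and_congr_right fun hQ => ?_
    rw [(used_of_answers _ _ hQ.1 e1).2.2])
  rw [h, hth]
  simp only [decide_eq_true_eq]
  exact S3_ChkS_trunc act v C (by omega)

/-- the checking procedure -/
theorem S3_exists_h (D : OracleProc (List Bool) Bool) (y₀ : List Bool) : ∃ h : FN, ∀ X v,
    h.run X v =
      if D.run X (cd v (un (16 * (v.length + 1) * (v.length + 1)))) = true then cf v else y₀ := by
  have hg : FP fun v : List Bool => cd v (un (16 * (v.length + 1) * (v.length + 1))) := by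
    have h1 : FP fun v : List Bool =>
        cd v (un ((16 * (Polynomial.X + 1) * (Polynomial.X + 1) : Polynomial ℕ).eval
          v.length)) :=
      FP.cd FP.id (FP.un_poly FP.id _)
    refine (congrArg FP (funext fun v => ?_)).mp h1
    simp
  obtain ⟨h, hh⟩ := Pool.Agent.Helper49.Cons.exists_post (comap D _ hg)
    (fun s : List Bool × Bool => if s.2 then cf s.1 else y₀)
    (FP.ite FP.snd (FP.cf FP.fst) (FP.const _))
  refine ⟨h, fun X v => ?_⟩
  rw [hh, comap_run]

/-- simulation -/
theorem S3_sim {act : Act} (hs : Short act) {D : OracleProc (List Bool) Bool}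
    (hD : Drives act D thS) {W : World} {C : Oracle} (hC : Hat act W C)
    (hon : ∀ e, (∀ w, Kc act C ((enumF e).run (Xo act C) w) = true) →
      ∃ J, ∀ w N, J ≤ (cw e w N).length → W.2 (cw e w N) = true)
    {h : FN} {y₀ : List Bool}
    (hh : ∀ X v, h.run X v =
      if D.run X (cd v (un (16 * (v.length + 1) * (v.length + 1)))) = true then cf v else y₀)
    (g : FN) (hg : ∀ w, Kc act C (g.run (Xo act C) w) = true) :
    ∃ k : FN, ∀ w, h.run (Xo act C) (k.run (Xo act C) w) = g.run (Xo act C) w := by
  obtain ⟨e, he⟩ := enumF_surj g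
  obtain ⟨J, hJ⟩ := hon e (by rw [he]; exact hg)
  obtain ⟨q1, hq1⟩ := QB_word g
  obtain ⟨qo, hqo⟩ := out_bound g
  set r : Polynomial ℕ := q1 + qo + Polynomial.C J with hr
  have hFP : FP fun t : List Bool × List Bool =>
      cd t.2 (cd (cd (un e) t.1) (un (r.eval t.1.length))) :=
    FP.cd FP.snd (FP.cd (FP.cd (FP.const _) FP.fst) (FP.un_poly FP.fst r))
  obtain ⟨k, hk⟩ := Pool.Agent.Helper49.Cons.exists_post g _ hFP
  refine ⟨k, fun w => ?_⟩
  have hre : r.eval w.length = q1.eval w.length + qo.eval w.length + J := by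
    rw [hr]
    simp
  set N := r.eval w.length with hN
  set y := g.run (Xo act C) w with hy
  have hQ : QB g w N := hq1 w N (by omega)
  have hkw : k.run (Xo act C) w = cd y (cd (cd (un e) w) (un N)) := by
    rw [hk]
  have hchk : ChkS act (k.run (Xo act C) w) C := by
    unfold ChkS
    rw [hkw]
    simp only [cf_cd, cs_cd, un_length]
    refine ⟨?_, ?_, ?_⟩
    · rw [he]
      exact hQ
    · rw [he]
    · refine (hC.cod e w N).2 ⟨hJ w N ?_, ?_, ?_, ?_⟩
      · rw [cw_length]
        nlinarith
      · rw [he]
        exact hQ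
      · rw [he]
        have h4 : y.length ≤ qo.eval w.length := hqo _ w
        rw [← hy]
        omega
      · rw [he]
        exact of_decide_eq_true (hg w)
  rw [hh, if_pos ((chkS_run hs hD C _).2 hchk), hkw, cf_cd]

/-- the complete language of NP is not empty -/
theorem S3_exists_mem (act : Act) (C : Oracle) : ∃ y, Kc act C y = true := by
  have hall : (fun _ : List Bool => true) ∈ NPo (Xo act C) := by
    have hf : FP fun _ : List Bool × List Bool => ([] : List Bool) := FP.const _
    refine ⟨0, comap (pureProc (fun _ : List Bool => true) (FP.const _)) (fun _ => []) hf,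
      fun x => ?_⟩
    simp only [comap_run, pureProc_run, Accepts]
    simp
  obtain ⟨f, hf⟩ := Kc_hard act C _ hall
  exact ⟨f.run (Xo act C) [], (hf []).symm⟩

theorem popt {act : Act} (hs : Short act) {D : OracleProc (List Bool) Bool}
    (hD : Drives act D thS) {W : World} {C : Oracle} (hC : Hat act W C)
    (hon : ∀ e, (∀ w, Kc act C ((enumF e).run (Xo act C) w) = true) →
      ∃ J, ∀ w N, J ≤ (cw e w N).length → W.2 (cw e w N) = true) :
    ∃ h, IsPOptimalRel (Xo act C) (Kc act C) h := by
  obtain ⟨y₀, hy₀⟩ := S3_exists_mem act C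
  obtain ⟨h, hh⟩ := S3_exists_h D y₀
  refine ⟨h, ⟨fun y => ⟨fun hy => ?_, ?_⟩, fun g hg => ?_⟩⟩
  · obtain ⟨k, hk⟩ := S3_sim hs hD hC hon hh (pureProc (fun _ => y) (FP.const _)) (by
      intro w
      rw [pureProc_run]
      exact hy)
    exact ⟨k.run (Xo act C) [], by rw [hk, pureProc_run]⟩
  · rintro ⟨v, hv⟩
    rw [hh] at hv
    by_cases h1 : D.run (Xo act C) (cd v (un (16 * (v.length + 1) * (v.length + 1)))) = true
    · rw [if_pos h1] at hv
      have h2 := (chkS_run hs hD C v).1 h1
      unfold ChkS at h2
      simp only at h2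
      obtain ⟨-, b2, b3⟩ := h2
      have h3 := ((hC.cod _ _ _).1 b3).2.2.2
      rw [b2, hv] at h3
      exact decide_eq_true h3
    · rw [if_neg h1] at hv
      rw [← hv]
      exact hy₀
  · refine S3_sim hs hD hC hon hh g fun w => ?_
    exact (hg (g.run (Xo act C) w)).2 ⟨w, rfl⟩

end Pool.Agent.PudSat
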