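import Mathlib
import Pool.Agent.PudSat.S1

set_option autoImplicit false

/-!
# S4: the languages are in NP ∩ coNP; locality of the statements
-/

namespace Pool.Agent.PudSat

open N68a2faeb N793a5b8e N487b59b3 Pool.Agent.Helper22 Pool.Agent.PudOr Pool.Agent.PudTal
  Pool.Agent.PudOpt
open scoped Classical

/-- the procedure `D b` computes the predicate of `thT` on pairs -/
theorem S4_run {act : Act} {i J₀ : ℕ} {b : Bool} {D : OracleProc (List Bool) Bool}
    (hD : Drives act D (thT i J₀ b)) (C : Oracle) (x w : List Bool) :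
    D.run (Xo act C) (cd x w) =
      if (∃ j, J₀ ≤ j ∧ fam j = i ∧ x.length = sc j) then
        decide (w.length + 1 = x.length) && C (false :: b :: w) else !b := by
  have h := hD C (cd x w) ?_ ?_
  · rw [h]
    simp only [thT, cf_cd, cs_cd]
  · intro ans q hq
    simp only [thT, cs_cd] at hq
    split_ifs at hq with h1
    cases hq
    simp only [List.length_cons]
    omega
  · intro C' hC'
    simp only [thT, cf_cd, cs_cd] at hC' ⊢
    by_cases hc : ∃ j, J₀ ≤ j ∧ fam j = i ∧ x.length = sc j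
    · rw [if_pos hc, if_pos hc]
      by_cases hw : w.length + 1 = x.length
      · have hlen : w.length + 2 ≤ (cd x w).length := by
          rw [cd_length]
          omega
        simp only [if_pos hlen] at hC'
        obtain ⟨n, hn⟩ : ∃ n, (cd x w).length = n + 1 := ⟨(cd x w).length - 1, by omega⟩
        rw [hn, sAns, sAns] at hC'
        have h1 := (List.cons.inj hC').1
        simp only [look] at h1
        rw [h1]
      · have hd : decide (w.length + 1 = x.length) = false := decide_eq_false hw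
        rw [hd, Bool.false_and, Bool.false_and]
    · rw [if_neg hc, if_neg hc]

theorem tl_mem {act : Act} {i J₀ : ℕ} {D : Bool → OracleProc (List Bool) Bool}
    (hD : ∀ b, Drives act (D b) (thT i J₀ b)) {W : World} {C : Oracle} (hC : Hat act W C)
    (hW : ∀ j, J₀ ≤ j → fam j = i → One W.1 j) :
    tl i J₀ W.1 ∈ NPo (Xo act C) ∩ coNPo (Xo act C) := by
  have hcd : FP fun a : List Bool × List Bool => cd a.1 a.2 := by fun_prop
  constructor
  · refine ⟨Polynomial.X, comap (D true) _ hcd, fun x => ?_⟩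
    unfold Accepts
    simp only [comap_run, S4_run (hD true), Polynomial.eval_X, hC.gen]
    constructor
    · intro h
      obtain ⟨j, hj1, hj2, hj3, y, hy, hCy⟩ := of_decide_eq_true h
      refine ⟨y, by omega, ?_⟩
      rw [if_pos ⟨j, hj1, hj2, hj3⟩, hCy, Bool.and_true, decide_eq_true_eq]
      omega
    · rintro ⟨w, hw, hw2⟩
      split_ifs at hw2 with hc
      · obtain ⟨j, hj1, hj2, hj3⟩ := hc
        rw [Bool.and_eq_true, decide_eq_true_eq] at hw2
        exact decide_eq_true ⟨j, hj1, hj2, hj3, w, by omega, hw2.2⟩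
      · simp at hw2
  · change (tl i J₀ W.1)ᶜ ∈ NPo (Xo act C)
    refine ⟨Polynomial.X, comap (D false) _ hcd, fun x => ?_⟩
    have hcompl : (tl i J₀ W.1)ᶜ x = true ↔ ¬ (tl i J₀ W.1 x = true) := by
      change (!(tl i J₀ W.1 x)) = true ↔ _
      cases tl i J₀ W.1 x <;> simp
    rw [hcompl]
    unfold Accepts
    simp only [comap_run, S4_run (hD false), Polynomial.eval_X, hC.gen]
    constructor
    · intro h
      by_cases hc : ∃ j, J₀ ≤ j ∧ fam j = i ∧ x.length = sc j
      · obtain ⟨j, hj1, hj2, hj3⟩ := hc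
        have hF := hW j hj1 hj2
        by_cases hy : ∃ y : List Bool, y.length + 1 = sc j ∧ W.1 (false :: y) = true
        · obtain ⟨y, hy1, hy2⟩ := hy
          refine ⟨y, by omega, ?_⟩
          rw [if_pos ⟨j, hj1, hj2, hj3⟩, hy2, Bool.and_true, decide_eq_true_eq]
          omega
        · obtain ⟨y, hy1, hy2⟩ := hF.2 hy
          exact absurd (decide_eq_true ⟨j, hj1, hj2, hj3, y, hy1, hy2⟩) h
      · refine ⟨[], by simp, ?_⟩
        rw [if_neg hc]
        rfl
    · rintro ⟨w, hw, hw2⟩ h
      obtain ⟨j, hj1, hj2, hj3, y, hy, hCy⟩ := of_decide_eq_true h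
      rw [if_pos ⟨j, hj1, hj2, hj3⟩, Bool.and_eq_true, decide_eq_true_eq] at hw2
      exact (hW j hj1 hj2).1 ⟨y, hy, hCy⟩ ⟨w, by omega, hw2.2⟩

theorem S4_AgreeW_mono {n m : ℕ} (h : n ≤ m) {W W' : World} (hW : AgreeW m W W') :
    AgreeW n W W' :=
  ⟨A2_Agree.mono h hW.1, A2_Agree.mono h hW.2⟩

theorem S4_tl_local (i J₀ : ℕ) (x : List Bool) {A A' : Oracle} (h : Agree x.length A A') :
    tl i J₀ A x = tl i J₀ A' x := by
  unfold tl
  rw [decide_eq_decide]
  constructor
  · rintro ⟨j, h1, h2, h3, y, h4, h5⟩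
    refine ⟨j, h1, h2, h3, y, h4, ?_⟩
    rw [← h _ (by rw [List.length_cons]; omega)]
    exact h5
  · rintro ⟨j, h1, h2, h3, y, h4, h5⟩
    refine ⟨j, h1, h2, h3, y, h4, ?_⟩
    rw [h _ (by rw [List.length_cons]; omega)]
    exact h5

theorem S4_uniq_local {act : Act} (hs : Short act) (e : Ver) (x : List Bool) :
    ∃ n, ∀ C C', Agree n C C' → (Uniq act e x C ↔ Uniq act e x C') := by
  obtain ⟨q, hq⟩ := QB_ver e
  refine ⟨q.eval x.length, fun C C' h => ?_⟩
  have h1 : ∀ w : List Bool, w.length ≤ e.2.eval x.length →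
      e.1.run (Xo act C) (x, w) = e.1.run (Xo act C') (x, w) :=
    fun w hw => run_local hs e.1 (hq x _ le_rfl w hw).2 h
  constructor
  · intro hu w w' hw hw' hr hr'
    exact hu w w' hw hw' (by rw [h1 w hw]; exact hr) (by rw [h1 w' hw']; exact hr')
  · intro hu w w' hw hw' hr hr'
    exact hu w w' hw hw' (by rw [← h1 w hw]; exact hr) (by rw [← h1 w' hw']; exact hr')

theorem S4_KcP_local {act : Act} (hs : Short act) (z u : List Bool) {C C' : Oracle}
    (h : Agree z.length C C') : KcP act z u C ↔ KcP act z u C' := by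
  unfold KcP
  constructor
  · rintro ⟨h1, h2, h3⟩
    exact ⟨h1, h2, by rw [← run_local hs _ h2 h]; exact h3⟩
  · rintro ⟨h1, h2, h3⟩
    exact ⟨h1, h2, by rw [run_local hs _ h2 h]; exact h3⟩

theorem uq_local {act : Act} (hs : Short act) (e : Ver) (x : List Bool) :
    ∃ n, ∀ W W', AgreeW n W W' → (PUq act e x W ↔ PUq act e x W') := by
  obtain ⟨n, hn⟩ := S4_uniq_local hs e x
  exact ⟨n, fun W W' h => hn _ _ (hat_agree hs h)⟩

theorem sn_local {act : Act} (hs : Short act) (e : ℕ) (w : List Bool) :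
    ∃ n, ∀ W W', AgreeW n W W' → (PSn act e w W ↔ PSn act e w W') := by
  obtain ⟨qf, hf⟩ := QB_word (enumF e)
  obtain ⟨qo, ho⟩ := out_bound (enumF e)
  refine ⟨qf.eval w.length + qo.eval w.length, fun W W' h => ?_⟩
  have hA : Agree (qf.eval w.length + qo.eval w.length) (hat act W) (hat act W') :=
    hat_agree hs h
  have e1 : (enumF e).run (Xo act (hat act W)) w = (enumF e).run (Xo act (hat act W')) w :=
    run_local hs (enumF e) (hf w _ le_rfl) (A2_Agree.mono (by omega) hA)
  have e2 : ((enumF e).run (Xo act (hat act W')) w).length ≤ qo.eval w.length := ho _ w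
  have e3 : ∀ u, KcP act ((enumF e).run (Xo act (hat act W')) w) u (hat act W) ↔
      KcP act ((enumF e).run (Xo act (hat act W')) w) u (hat act W') :=
    fun u => S4_KcP_local hs _ u (A2_Agree.mono (by omega) hA)
  unfold PSn Kc
  rw [e1]
  simp only [decide_eq_true_eq, e3]

theorem good_local {act : Act} (hs : Short act) (e : Ver × Ver) (x : List Bool) :
    ∃ n, ∀ W W', AgreeW n W W' → (PGood act e x W ↔ PGood act e x W') := by
  obtain ⟨q, hq⟩ := acc_local hs e.1
  obtain ⟨q', hq'⟩ := acc_local hs e.2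
  refine ⟨max (q.eval x.length) (q'.eval x.length), fun W W' h => ?_⟩
  have h1 := hq x (hat act W) (hat act W')
    (hat_agree hs (S4_AgreeW_mono (le_max_left _ _) h))
  have h2 := hq' x (hat act W) (hat act W')
    (hat_agree hs (S4_AgreeW_mono (le_max_right _ _) h))
  unfold PGood
  rw [h1, h2]

theorem red_local {act : Act} (hs : Short act) (f : FN) (i J₀ : ℕ) (e : Ver × Ver)
    (x : List Bool) : ∃ n, ∀ W W', AgreeW n W W' →
      (PRed act f i J₀ e x W ↔ PRed act f i J₀ e x W') := by
  obtain ⟨q1, h1⟩ := acc_local hs e.1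
  obtain ⟨q2, h2⟩ := acc_local hs e.2
  obtain ⟨qf, hf⟩ := QB_word f
  obtain ⟨qo, ho⟩ := out_bound f
  refine ⟨q1.eval (qo.eval x.length) + q2.eval (qo.eval x.length) + qf.eval x.length +
    x.length, ?_⟩
  intro W W' h
  have e1 : f.run (Xo act (hat act W)) x = f.run (Xo act (hat act W')) x :=
    run_local hs f (hf x _ le_rfl) (hat_agree hs (S4_AgreeW_mono (by omega) h))
  have e2 : tl i J₀ W.1 x = tl i J₀ W'.1 x :=
    S4_tl_local i J₀ x (A2_Agree.mono (by omega) h.1)
  have e3 : (f.run (Xo act (hat act W')) x).length ≤ qo.eval x.length := ho _ x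
  have m1 : q1.eval (f.run (Xo act (hat act W')) x).length ≤ q1.eval (qo.eval x.length) :=
    poly_mono q1 e3
  have m2 : q2.eval (f.run (Xo act (hat act W')) x).length ≤ q2.eval (qo.eval x.length) :=
    poly_mono q2 e3
  have e4 := h1 (f.run (Xo act (hat act W')) x) (hat act W) (hat act W')
    (hat_agree hs (S4_AgreeW_mono (by omega) h))
  have e5 := h2 (f.run (Xo act (hat act W')) x) (hat act W) (hat act W')
    (hat_agree hs (S4_AgreeW_mono (by omega) h))
  unfold PRed
  rw [e1, e2, e4, e5]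

end Pool.Agent.PudSat
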