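import Mathlib
import Pool.Agent.PudSat.S1
import Pool.Agent.PudOpt.O6
import Pool.Agent.PudOr.A6b

set_option autoImplicit false

/-!
# S5: the clash
-/

namespace Pool.Agent.PudSat

open N68a2faeb N793a5b8e N487b59b3 Pool.Agent.Helper22 Pool.Agent.PudOr Pool.Agent.PudTal
  Pool.Agent.PudOpt
open scoped Classical


/-- the world `B` with the contents `K` at the scale `j` -/
noncomputable def put (B : World) (j : ℕ) (K : List (List Bool)) : World :=
  (fun q => if q.length = sc j then decide (q ∈ K) else B.1 q, B.2)

/-- the world `B` is compatible with `c` and has no other requests beyond `sc c.J` -/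
structure Base (c : CondS) (B : World) : Prop where
  comp : Comp c B
  only : ∀ q : List Bool, sc c.J ≤ q.length → B.2 q = true → ∃ e ∈ c.st, ∃ w N, q = cw e w N

theorem S5_ne {B : World} {j : ℕ} {K : List (List Bool)} {q : List Bool}
    (h : q.length ≠ sc j) : (put B j K).1 q = B.1 q := if_neg h

theorem S5_at {B : World} {j : ℕ} {K : List (List Bool)} {q : List Bool}
    (h : q.length = sc j) : (put B j K).1 q = decide (q ∈ K) := if_pos h

theorem S5_mem_length {α β : Type} [N487b59b3 α] [N487b59b3 β] {act : Act} (hs : Short act)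
    (M : OracleProc α β) {C : Oracle} {a : α} {N : ℕ} (h : QB M a N) {q : List Bool}
    (hq : q ∈ used act M C a) : q.length < N := by
  obtain ⟨n, hn, hz⟩ := (mem_used act M C a q).1 hq
  have h1 := hs _ _ hz
  have h2 := h.2 (M.answers (Xo act C) a n) (by rw [OracleProc.answers_length]; omega)
  omega

/-- unions of sets of words -/
theorem S5_list {P : List Bool → List (List Bool) → Prop}
    (hmono : ∀ p D D', (∀ d ∈ D, d ∈ D') → P p D → P p D') {N : ℕ} (U : List (List Bool))
    (h : ∀ p ∈ U, ∃ D : List (List Bool), D.length ≤ N ∧ P p D) :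
    ∃ D : List (List Bool), D.length ≤ U.length * N ∧ ∀ p ∈ U, P p D := by
  induction U with
  | nil => exact ⟨[], Nat.zero_le _, fun p hp => absurd hp List.not_mem_nil⟩
  | cons u U ih =>
    obtain ⟨D, h1, h2⟩ := ih fun p hp => h p (List.mem_cons_of_mem _ hp)
    obtain ⟨D', h3, h4⟩ := h u List.mem_cons_self
    refine ⟨D' ++ D, ?_, ?_⟩
    · rw [List.length_append, List.length_cons, Nat.succ_mul]
      omega
    · intro p hp
      rcases List.mem_cons.1 hp with hp | hp
      · subst hp
        exact hmono _ _ _ (fun d hd => List.mem_append_left _ hd) h4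
      · exact hmono _ _ _ (fun d hd => List.mem_append_right _ hd) (h2 p hp)

/-- the answer at `q` depends on at most `q.length` words of the scale `j`, in one direction -/
theorem dep {act : Act} (hs : Short act) {c : CondS}
    (hsound : ∀ e ∈ c.st, ∀ W, Comp c W → ∀ w, PSn act e w W) {B : World} (hB : Base c B)
    {j : ℕ} (hj : c.J ≤ j) (K : List (List Bool)) (hK : Comp c (put B j K)) (q : List Bool) :
    ∃ D : List (List Bool), D.length ≤ q.length ∧
      ∀ K' : List (List Bool), (∀ d ∈ D, d ∈ K' ↔ d ∈ K) →
        hat act (put B j K') q = hat act (put B j K) q := by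
  have hspec : ∀ K', Hat act (put B j K') (hat act (put B j K')) := fun K' => hat_spec hs _
  induction hn : q.length using Nat.strong_induction_on generalizing q with
  | _ n ih =>
  subst hn
  rcases q with - | ⟨b, q'⟩
  · exact ⟨[], Nat.zero_le _, fun K' _ => by rw [(hspec K').nil, (hspec K).nil]⟩
  cases b with
  | false =>
    refine ⟨[q'], by simp, fun K' h => ?_⟩
    rw [(hspec K').gen, (hspec K).gen]
    by_cases hl : q'.length = sc j
    · rw [S5_at hl, S5_at hl, decide_eq_decide]
      exact h q' (List.mem_singleton_self _)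
    · rw [S5_ne hl, S5_ne hl]
  | true =>
    by_cases hcw : ∃ e w N, true :: q' = cw e w N
    swap
    · push Not at hcw
      exact ⟨[], Nat.zero_le _, fun K' _ => by rw [(hspec K').oth q' hcw, (hspec K).oth q' hcw]⟩
    obtain ⟨e, w, N, hq⟩ := hcw
    rw [hq] at ih ⊢
    have hlen := cw_length e w N
    have hNlen : N < (cw e w N).length := by omega
    have hiff : ∀ K', (B.2 (cw e w N) = true →
        (TrueC act e w N (hat act (put B j K')) ↔ TrueC act e w N (hat act (put B j K)))) →
        hat act (put B j K') (cw e w N) = hat act (put B j K) (cw e w N) := by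
      intro K' h
      rw [Bool.eq_iff_iff, (hspec K').cod, (hspec K).cod]
      exact and_congr_right h
    by_cases hB2 : B.2 (cw e w N) = true
    swap
    · exact ⟨[], Nat.zero_le _, fun K' _ => hiff K' fun h => absurd h hB2⟩
    by_cases hl : (cw e w N).length < sc c.J
    · refine ⟨[], Nat.zero_le _, fun K' _ => ?_⟩
      have hle : sc c.J ≤ sc j := sc_strictMono.monotone hj
      refine hat_agree hs (W := put B j K') (W' := put B j K) (n := (cw e w N).length)
        ⟨fun p hp => ?_, fun p hp => rfl⟩ _ le_rfl
      rw [S5_ne (by omega), S5_ne (by omega)]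
    obtain ⟨e', he', w', N', hcw'⟩ := hB.only _ (not_lt.1 hl) hB2
    obtain ⟨rfl, rfl, rfl⟩ := cw_inj hcw'
    by_cases hQB : QB (enumF e) w N
    swap
    · exact ⟨[], Nat.zero_le _, fun K' _ => hiff K' fun _ =>
        ⟨fun h => absurd h.1 hQB, fun h => absurd h.1 hQB⟩⟩
    set C : Oracle := hat act (put B j K) with hC
    -- lists of words
    have hmono : ∀ (p : List Bool) (D D' : List (List Bool)), (∀ d ∈ D, d ∈ D') →
        (∀ K' : List (List Bool), (∀ d ∈ D, d ∈ K' ↔ d ∈ K) →
          hat act (put B j K') p = C p) →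
        (∀ K' : List (List Bool), (∀ d ∈ D', d ∈ K' ↔ d ∈ K) →
          hat act (put B j K') p = C p) :=
      fun p D D' hDD h K' hK' => h K' fun d hd => hK' d (hDD d hd)
    have hlist : ∀ U : List (List Bool), U.length ≤ N → (∀ p ∈ U, p.length < N) →
        ∃ D : List (List Bool), D.length ≤ N * N ∧ ∀ p ∈ U,
          ∀ K' : List (List Bool), (∀ d ∈ D, d ∈ K' ↔ d ∈ K) →
            hat act (put B j K') p = C p := by
      intro U hU hUl
      obtain ⟨D, h1, h2⟩ := S5_list (P := fun p D => ∀ K' : List (List Bool),
        (∀ d ∈ D, d ∈ K' ↔ d ∈ K) → hat act (put B j K') p = C p) hmono (N := N) U (by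
          intro p hp
          have hpl := hUl p hp
          obtain ⟨D, h1, h2⟩ := ih p.length (by omega) p rfl
          exact ⟨D, by omega, h2⟩)
      exact ⟨D, h1.trans (Nat.mul_le_mul_right _ hU), h2⟩
    obtain ⟨D₁, hD₁, hD₁'⟩ := hlist (used act (enumF e) C w)
      ((used_length _ _ _ _).trans hQB.1) (fun p hp => S5_mem_length hs _ hQB hp)
    have hrun : ∀ K' : List (List Bool), (∀ d ∈ D₁, d ∈ K' ↔ d ∈ K) →
        (enumF e).run (Xo act (hat act (put B j K'))) w = (enumF e).run (Xo act C) w :=
      fun K' hK' => run_used act _ fun p hp => hD₁' p hp K' hK'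
    by_cases hy : ((enumF e).run (Xo act C) w).length ≤ N
    swap
    · refine ⟨D₁, by rw [hlen]; nlinarith [hD₁], fun K' hK' => hiff K' fun _ => ?_⟩
      constructor
      · intro h
        exact absurd (by rw [← hrun K' hK']; exact h.2.1) hy
      · intro h
        exact absurd h.2.1 hy
    have hPSn : PSn act e w (put B j K) := hsound e he' _ hK w
    unfold PSn Kc at hPSn
    rw [decide_eq_true_eq] at hPSn
    obtain ⟨u, hu⟩ := hPSn
    rw [← hC] at hu
    obtain ⟨hu1, hu2, hu3⟩ := hu
    obtain ⟨D₂, hD₂, hD₂'⟩ := hlist (used act (enumV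
        (cf (cf ((enumF e).run (Xo act C) w))).length) C
        (cs (cf ((enumF e).run (Xo act C) w)), u))
      (((used_length _ _ _ _).trans hu2.1).trans hy)
      (fun p hp => (S5_mem_length hs _ hu2 hp).trans_le hy)
    refine ⟨D₁ ++ D₂, by rw [List.length_append, hlen]; nlinarith [hD₁, hD₂],
      fun K' hK' => hiff K' fun _ => ?_⟩
    have h1 := hrun K' fun d hd => hK' d (List.mem_append_left _ hd)
    have h2 : (enumV (cf (cf ((enumF e).run (Xo act C) w))).length).run
        (Xo act (hat act (put B j K'))) (cs (cf ((enumF e).run (Xo act C) w)), u) =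
        (enumV (cf (cf ((enumF e).run (Xo act C) w))).length).run
        (Xo act C) (cs (cf ((enumF e).run (Xo act C) w)), u) :=
      run_used act _ fun p hp => hD₂' p hp K' fun d hd => hK' d (List.mem_append_right _ hd)
    constructor
    · intro _
      exact ⟨hQB, hy, u, hu1, hu2, hu3⟩
    · intro _
      refine ⟨hQB, by rw [h1]; exact hy, u, ?_⟩
      rw [h1]
      exact ⟨hu1, hu2, h2.trans hu3⟩

/-- compatibility of the changed world -/
theorem S5_comp {c : CondS} {B : World} (hB : Comp c B) {j : ℕ} (hj : c.J ≤ j)
    {K : List (List Bool)} (h1 : fam j < c.m → One (put B j K).1 j) :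
    Comp c (put B j K) := by
  have hle : sc c.J ≤ sc j := sc_strictMono.monotone hj
  refine ⟨fun q hq => ?_, hB.rq, hB.st, fun j' hj' hf => ?_⟩
  · rw [S5_ne (by omega)]
    exact hB.pos q hq
  · by_cases h : j' = j
    · subst h; exact h1 hf
    · have h2 := hB.one j' hj' hf
      have hne : sc j' ≠ sc j := fun h' => h (sc_strictMono.injective h')
      unfold One at h2 ⊢
      have h3 : ∀ b : Bool, (∃ y : List Bool, y.length + 1 = sc j' ∧
          (put B j K).1 (b :: y) = true) ↔
          ∃ y : List Bool, y.length + 1 = sc j' ∧ B.1 (b :: y) = true := by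
        intro b
        constructor
        · rintro ⟨y, hy, hy'⟩
          rw [S5_ne (by rw [List.length_cons]; omega)] at hy'
          exact ⟨y, hy, hy'⟩
        · rintro ⟨y, hy, hy'⟩
          exact ⟨y, hy, by rw [S5_ne (by rw [List.length_cons]; omega)]; exact hy'⟩
      rw [h3, h3]
      exact h2

/-- the contents with one word -/
theorem S5_single {B : World} {j : ℕ} {b : Bool} {y : List Bool} (hy : y.length + 1 = sc j)
    (b' : Bool) : (∃ y' : List Bool, y'.length + 1 = sc j ∧
      (put B j [b :: y]).1 (b' :: y') = true) ↔ b' = b := by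
  constructor
  · rintro ⟨y', hy', h⟩
    rw [S5_at (by rw [List.length_cons]; exact hy'), decide_eq_true_eq, List.mem_singleton] at h
    injection h
  · rintro rfl
    refine ⟨y, hy, ?_⟩
    rw [S5_at (by rw [List.length_cons]; exact hy), decide_eq_true_eq]
    exact List.mem_singleton_self _

theorem S5_one {B : World} {j : ℕ} {b : Bool} {y : List Bool} (hy : y.length + 1 = sc j) :
    One (put B j [b :: y]).1 j := by
  unfold One
  rw [S5_single hy, S5_single hy]
  cases b <;> simp

/-- a decoding of the words of type `b` -/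
theorem S5_decode {n : ℕ} (b : Bool) (l : List (List Bool)) :
    ∃ l' : List (List.Vector Bool n), l'.length ≤ l.length ∧
      ∀ v : List.Vector Bool n, b :: v.1 ∈ l → v ∈ l' := by
  induction l with
  | nil => exact ⟨[], le_rfl, by simp⟩
  | cons q l ih =>
    obtain ⟨l', h1, h2⟩ := ih
    by_cases h : ∃ v : List.Vector Bool n, b :: v.1 = q
    · obtain ⟨v, hv⟩ := h
      refine ⟨v :: l', by simp only [List.length_cons]; omega, ?_⟩
      intro v' hv'
      rcases List.mem_cons.1 hv' with h3 | h3
      · have h4 := h3.trans hv.symm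
        injection h4 with _ h5
        rw [Subtype.ext h5]
        exact List.mem_cons_self
      · exact List.mem_cons_of_mem _ (h2 v' h3)
    · refine ⟨l', by simp only [List.length_cons]; omega, ?_⟩
      intro v' hv'
      rcases List.mem_cons.1 hv' with h3 | h3
      · exact absurd ⟨v', h3⟩ h
      · exact h2 v' h3

theorem clash {act : Act} (hs : Short act) {c c' : CondS}
    (hcc : ∀ W, Comp c' W → Comp c W) (hJ : c.J ≤ c'.J) (hst : ∀ e ∈ c.st, e ∈ c'.st)
    {W₀ : World} (hW₀ : Comp c' W₀)
    (hsound : ∀ e ∈ c'.st, ∀ W, Comp c' W → ∀ w, PSn act e w W)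
    {i : ℕ} (hi : c.m ≤ i) (J₀ : ℕ) (e : Ver × Ver)
    (hgood : ∀ W, Comp c W → ∀ x, PGood act e x W) (f : FN)
    (hred : ∀ W, Comp c' W → ∀ x, PRed act f i J₀ e x W) : False := by
  -- the base world
  set B : World := (fun q => if q.length < sc c'.J then W₀.1 q
      else decide (q = List.replicate q.length false),
    fun q => if q.length < sc c'.J then W₀.2 q
      else decide (∃ e ∈ c'.st, ∃ w N, q = cw e w N)) with hBdef
  have hB1 : ∀ q : List Bool, q.length < sc c'.J → B.1 q = W₀.1 q := fun q hq => if_pos hq
  have hB1' : ∀ q : List Bool, sc c'.J ≤ q.length →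
      B.1 q = decide (q = List.replicate q.length false) := fun q hq => if_neg (not_lt.2 hq)
  have hB2 : ∀ q : List Bool, q.length < sc c'.J → B.2 q = W₀.2 q := fun q hq => if_pos hq
  have hB2' : ∀ q : List Bool, sc c'.J ≤ q.length →
      B.2 q = decide (∃ e ∈ c'.st, ∃ w N, q = cw e w N) := fun q hq => if_neg (not_lt.2 hq)
  have hB : Base c' B := by
    refine ⟨⟨fun q hq => ?_, fun q hq => ?_, fun e he w N hl => ?_, fun j hj hf => ?_⟩,
      fun q hq h => ?_⟩
    · rw [hB1 q hq]; exact hW₀.pos q hq
    · rw [hB2 q hq]; exact hW₀.rq q hq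
    · rw [hB2' _ hl, decide_eq_true_eq]
      exact ⟨e, he, w, N, rfl⟩
    · have hle : sc c'.J ≤ sc j := sc_strictMono.monotone hj
      have hsj := le_sc j
      unfold One
      constructor
      · rintro ⟨y, hy, h⟩ -
        rw [hB1' _ (by rw [List.length_cons]; omega), decide_eq_true_eq, List.length_cons,
          List.replicate_succ] at h
        injection h with h1 _
        exact Bool.noConfusion h1
      · intro h
        exfalso
        apply h
        refine ⟨List.replicate (sc j - 1) false, by rw [List.length_replicate]; omega, ?_⟩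
        rw [hB1' _ (by rw [List.length_cons, List.length_replicate]; omega), decide_eq_true_eq,
          List.length_cons, List.length_replicate, List.replicate_succ]
    · rw [hB2' q hq, decide_eq_true_eq] at h
      exact h
  -- the scale
  obtain ⟨qf, hqf⟩ := QB_word f
  obtain ⟨q1, hq1⟩ := QB_ver e.1
  obtain ⟨q2, hq2⟩ := QB_ver e.2
  obtain ⟨qo, hqo⟩ := out_bound f
  set r : Polynomial ℕ := qf + (q1.comp qo + q2.comp qo) with hr
  obtain ⟨N, hN⟩ := a6b_poly (r * r)
  obtain ⟨j, hj, hfam⟩ := exists_fam i (max N (max c'.J J₀))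
  have hjN : N ≤ j := (le_max_left _ _).trans hj
  have hjJ : c'.J ≤ j := (le_max_left _ _).trans ((le_max_right _ _).trans hj)
  have hjJ0 : J₀ ≤ j := (le_max_right _ _).trans ((le_max_right _ _).trans hj)
  have hscj := le_sc j
  have hk := hN (sc j) (by omega)
  rw [Polynomial.eval_mul] at hk
  set k := r.eval (sc j) with hkdef
  have hkval : k = qf.eval (sc j) + (q1.eval (qo.eval (sc j)) + q2.eval (qo.eval (sc j))) := by
    rw [hkdef, hr, Polynomial.eval_add, Polynomial.eval_add, Polynomial.eval_comp,
      Polynomial.eval_comp]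
  obtain ⟨n, hn⟩ : ∃ n, n + 1 = sc j := ⟨sc j - 1, by omega⟩
  set x₀ : List Bool := List.replicate (sc j) false with hx₀
  have hx₀l : x₀.length = sc j := by rw [hx₀, List.length_replicate]
  -- the worlds with one word
  have hcomp : ∀ (b : Bool) (v : List.Vector Bool n), Comp c' (put B j [b :: v.1]) :=
    fun b v => S5_comp hB.comp hjJ fun _ => S5_one (by rw [v.2]; exact hn)
  have hacc : ∀ (b : Bool) (v : List.Vector Bool n),
      Acc act (side b e) (f.run (Xo act (hat act (put B j [b :: v.1]))) x₀)
        (hat act (put B j [b :: v.1])) := by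
    intro b v
    have h1 := hred _ (hcomp b v) x₀
    have h2 : tl i J₀ (put B j [b :: v.1]).1 x₀ = b := by
      have h3 : (∃ j', J₀ ≤ j' ∧ fam j' = i ∧ x₀.length = sc j' ∧
          ∃ y : List Bool, y.length + 1 = sc j' ∧
            (put B j [b :: v.1]).1 (true :: y) = true) ↔ true = b := by
        rw [← S5_single (B := B) (j := j) (b := b) (y := v.1) (by rw [v.2]; exact hn) true]
        constructor
        · rintro ⟨j', -, -, hj', h⟩
          have : j' = j := sc_strictMono.injective (by omega)
          subst this
          exact h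
        · intro h
          exact ⟨j, hjJ0, hfam, hx₀l, h⟩
      unfold tl
      by_cases h4 : true = b
      · rw [decide_eq_true (h3.2 h4)]
        exact h4
      · rw [decide_eq_false (fun h => h4 (h3.1 h))]
        cases b
        · rfl
        · exact absurd rfl h4
    cases b
    · exact h1.2 h2
    · exact h1.1 h2
  -- the sets of words
  have hdep : ∀ (b : Bool) (v : List.Vector Bool n), ∃ D : List (List Bool),
      D.length ≤ k * k ∧ ∀ K' : List (List Bool), (∀ d ∈ D, d ∈ K' ↔ d ∈ [b :: v.1]) →
        Acc act (side b e) (f.run (Xo act (hat act (put B j K'))) x₀)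
          (hat act (put B j K')) := by
    intro b v
    set C := hat act (put B j [b :: v.1]) with hC
    obtain ⟨w, hw, hrun⟩ := hacc b v
    rw [← hC] at hw hrun
    have bo : (f.run (Xo act C) x₀).length ≤ qo.eval (sc j) := by
      have := hqo (Xo act C) x₀
      rwa [hx₀l] at this
    have hqbf : QB f x₀ (qf.eval (sc j)) := hqf x₀ _ (le_of_eq (by rw [hx₀l]))
    have hqbv : QB (side b e).1 (f.run (Xo act C) x₀, w)
        (q1.eval (qo.eval (sc j)) + q2.eval (qo.eval (sc j))) := by
      cases b
      · exact ((hq2 (f.run (Xo act C) x₀) _ (poly_mono q2 bo) w hw).2).mono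
          (Nat.le_add_left _ _)
      · exact ((hq1 (f.run (Xo act C) x₀) _ (poly_mono q1 bo) w hw).2).mono
          (Nat.le_add_right _ _)
    obtain ⟨D, hD, hD'⟩ := S5_list (P := fun p D => ∀ K' : List (List Bool),
      (∀ d ∈ D, d ∈ K' ↔ d ∈ [b :: v.1]) → hat act (put B j K') p = C p)
      (fun p D D' hDD h K' hK' => h K' fun d hd => hK' d (hDD d hd)) (N := k)
      (used act f C x₀ ++ used act (side b e).1 C (f.run (Xo act C) x₀, w)) (by
        intro p hp
        obtain ⟨D, h1, h2⟩ := dep hs hsound hB hjJ _ (hcomp b v) p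
        refine ⟨D, h1.trans ?_, h2⟩
        rw [List.mem_append] at hp
        rcases hp with hp | hp
        · have := S5_mem_length hs f hqbf hp
          omega
        · have := S5_mem_length hs _ hqbv hp
          omega)
    refine ⟨D, hD.trans (Nat.mul_le_mul_right _ ?_), fun K' hK' => ?_⟩
    · rw [List.length_append, hkval]
      exact Nat.add_le_add ((used_length act f C x₀).trans hqbf.1)
        ((used_length act _ C _).trans hqbv.1)
    · have e1 : f.run (Xo act (hat act (put B j K'))) x₀ = f.run (Xo act C) x₀ :=
        run_used act f fun q hq => hD' q (List.mem_append_left _ hq) K' hK'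
      have e2 : (side b e).1.run (Xo act (hat act (put B j K'))) (f.run (Xo act C) x₀, w) =
          (side b e).1.run (Xo act C) (f.run (Xo act C) x₀, w) :=
        run_used act _ fun q hq => hD' q (List.mem_append_right _ hq) K' hK'
      refine ⟨w, ?_, ?_⟩
      · rw [e1]; exact hw
      · rw [e1, e2]; exact hrun
  choose D hD hD' using hdep
  -- the choice of the two words
  obtain ⟨ω, hω⟩ := avoidAll (α := List.Vector Bool n) 2 (k * k)
    ((Finset.univ : Finset Unit) ×ˢ (Finset.univ : Finset (Fin 2)))
    (fun _ t ω => if t = 0 then false :: (ω 0).1 ∈ D true (ω 1)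
      else true :: (ω 1).1 ∈ D false (ω 0))
    (by
      rintro ⟨a, t⟩ - ω
      fin_cases t
      · obtain ⟨l', h1, h2⟩ := S5_decode (n := n) false (D true (ω 1))
        refine ⟨l', h1.trans (hD _ _), fun v hv => ?_⟩
        simp only [Fin.zero_eta, Fin.isValue, if_true] at hv
        rw [Function.update_self, Function.update_of_ne (by decide)] at hv
        exact h2 v hv
      · obtain ⟨l', h1, h2⟩ := S5_decode (n := n) true (D false (ω 0))
        refine ⟨l', h1.trans (hD _ _), fun v hv => ?_⟩
        simp only [Fin.mk_one, Fin.isValue, one_ne_zero, if_false] at hv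
        rw [Function.update_self, Function.update_of_ne (by decide)] at hv
        exact h2 v hv)
    (by
      have h1 : ((Finset.univ : Finset Unit) ×ˢ (Finset.univ : Finset (Fin 2))).card = 2 := by
        simp
      have h2 : 2 ^ (sc j - 2) ≤ 2 ^ n := Nat.pow_le_pow_right (by norm_num) (by omega)
      rw [h1, card_vector, Fintype.card_bool]
      omega)
  have hω0 : false :: (ω 0).1 ∉ D true (ω 1) := by
    have h := hω ((), 0) (by simp)
    simpa using h
  have hω1 : true :: (ω 1).1 ∉ D false (ω 0) := by
    have h := hω ((), 1) (by simp)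
    simpa using h
  -- both words
  have hc : Comp c (put B j [false :: (ω 0).1, true :: (ω 1).1]) :=
    S5_comp (hcc B hB.comp) (hJ.trans hjJ) fun hf => by omega
  have hA0 := hD' false (ω 0) [false :: (ω 0).1, true :: (ω 1).1] (by
    intro d hd
    rw [List.mem_cons, List.mem_singleton, List.mem_singleton]
    constructor
    · rintro (h | h)
      · exact h
      · exact absurd (h ▸ hd) hω1
    · exact Or.inl)
  have hA1 := hD' true (ω 1) [false :: (ω 0).1, true :: (ω 1).1] (by
    intro d hd
    rw [List.mem_cons, List.mem_singleton]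
    constructor
    · rintro (h | h)
      · exact absurd (h ▸ hd) hω0
      · exact h
    · exact Or.inr)
  have hg := hgood _ hc (f.run (Xo act (hat act (put B j [false :: (ω 0).1, true :: (ω 1).1]))) x₀)
  unfold PGood at hg
  exact hg.1 hA1 hA0

end Pool.Agent.PudSat
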