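import Mathlib
import Pool.Agent.PudSat.Defs

set_option autoImplicit false

/-!
# S6a: searching with certificates
-/

namespace Pool.Agent.PudSat

open N68a2faeb N793a5b8e N487b59b3 Pool.Agent.Helper22 Pool.Agent.PudOr Pool.Agent.PudTal
  Pool.Agent.PudOpt
open scoped Classical

theorem S6a_len (σ : Strat) (C : Oracle) (n : ℕ) : (sAns σ C n).length = n := by
  induction n with
  | zero => rfl
  | succ n ih => rw [sAns, List.length_cons, ih]

theorem S6a_anti {Ω Ω' : Set Oracle} {okq : List Bool → Prop} {n : ℕ} {β : Type} {F : Oracle → β}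
    (h : Det Ω okq n F) (hs : Ω' ⊆ Ω) : Det Ω' okq n F := by
  obtain ⟨σ, h1, h2⟩ := h
  exact ⟨σ, h1, fun C hC C' hC' => h2 C (hs hC) C' (hs hC')⟩

theorem S6a_congr {Ω : Set Oracle} {okq : List Bool → Prop} {n : ℕ} {β : Type} {F G : Oracle → β}
    (h : Det Ω okq n F) (hs : ∀ C ∈ Ω, F C = G C) : Det Ω okq n G := by
  obtain ⟨σ, h1, h2⟩ := h
  exact ⟨σ, h1, fun C hC C' hC' e => by rw [← hs C hC, ← hs C' hC', h2 C hC C' hC' e]⟩

theorem S6a_comp {Ω : Set Oracle} {okq : List Bool → Prop} {n : ℕ} {β γ : Type} {F : Oracle → β}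
    (h : Det Ω okq n F) (g : β → γ) : Det Ω okq n (fun C => g (F C)) := by
  obtain ⟨σ, h1, h2⟩ := h
  exact ⟨σ, h1, fun C hC C' hC' e => congrArg g (h2 C hC C' hC' e)⟩

theorem S6a_const (Ω : Set Oracle) (okq : List Bool → Prop) (n : ℕ) {β : Type} (b : β) :
    Det Ω okq n (fun _ => b) :=
  ⟨fun _ => .inl false, fun _ _ h => by simp at h, fun _ _ _ _ _ => rfl⟩

theorem S6a_prefix {σ : Strat} {C C' : Oracle} {n m : ℕ} (hnm : n ≤ m)
    (h : sAns σ C m = sAns σ C' m) : sAns σ C n = sAns σ C' n := by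
  induction m, hnm using Nat.le_induction with
  | base => exact h
  | succ m _ ih =>
    rw [sAns, sAns] at h
    exact ih (List.cons.inj h).2

theorem S6a_mono {Ω : Set Oracle} {okq : List Bool → Prop} {n m : ℕ} {β : Type} {F : Oracle → β}
    (h : Det Ω okq n F) (hnm : n ≤ m) : Det Ω okq m F := by
  obtain ⟨σ, h1, h2⟩ := h
  exact ⟨σ, h1, fun C hC C' hC' e => h2 C hC C' hC' (S6a_prefix hnm e)⟩

/-- the restriction to a list of words -/
theorem S6a_list (okq : List Bool → Prop) (Q : List (List Bool)) (hQ : ∀ q ∈ Q, okq q) :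
    Det Set.univ okq Q.length (fun C => Q.map C) := by
  refine ⟨fun ans => if h : ans.length < Q.length then .inr (Q[ans.length]) else .inl false,
    ?_, ?_⟩
  · intro ans q h
    dsimp only at h
    split_ifs at h with h1
    rw [Sum.inr.injEq] at h
    exact h ▸ hQ _ (List.getElem_mem _)
  · intro C _ C' _ e
    set σ : Strat := fun ans => if h : ans.length < Q.length then .inr (Q[ans.length]) else
      .inl false with hσ
    have key : ∀ i (hi : i < Q.length), C (Q[i]) = C' (Q[i]) := by
      intro i hi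
      have h1 := S6a_prefix (Nat.succ_le_of_lt hi) e
      rw [sAns, sAns] at h1
      have h2 := (List.cons.inj h1).1
      have hval : ∀ ans : List Bool, ans.length = i → σ ans = .inr (Q[i]) := by
        intro ans h4
        subst h4
        rw [hσ]
        dsimp only
        rw [dif_pos hi]
      have h3 : ∀ D : Oracle, σ (sAns σ D i) = .inr (Q[i]) := fun D => hval _ (S6a_len _ _ _)
      rw [h3, h3] at h2
      exact h2
    apply List.ext_getElem
    · simp
    · intro i h1 h2
      simp only [List.getElem_map]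
      exact key i (by simpa using h1)

/-- sequential composition -/
theorem S6a_seq {Ω : Set Oracle} {okq : List Bool → Prop} {n₁ n₂ : ℕ} {β γ : Type}
    {F : Oracle → β} {G : Oracle → γ} (h1 : Det Ω okq n₁ F)
    (h2 : ∀ v, Det (Ω ∩ {C | F C = v}) okq n₂ G) :
    Det Ω okq (n₁ + n₂) (fun C => (F C, G C)) := by
  obtain ⟨σ₁, a1, a2⟩ := h1
  choose σ₂ b1 b2 using h2
  set τ : List Bool → Strat := fun ans₁ =>
    if h : ∃ C ∈ Ω, sAns σ₁ C n₁ = ans₁ then σ₂ (F h.choose) else fun _ => .inl false with hτ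
  have τok : ∀ a ans q, τ a ans = .inr q → okq q := by
    intro a ans q h
    rw [hτ] at h
    dsimp only at h
    split_ifs at h with h'
    · exact b1 _ _ _ h
  have τval : ∀ C ∈ Ω, τ (sAns σ₁ C n₁) = σ₂ (F C) := by
    intro C hC
    have h : ∃ C' ∈ Ω, sAns σ₁ C' n₁ = sAns σ₁ C n₁ := ⟨C, hC, rfl⟩
    rw [hτ]
    dsimp only
    rw [dif_pos h, a2 _ h.choose_spec.1 C hC h.choose_spec.2]
  set σ : Strat := fun ans => if ans.length < n₁ then σ₁ ans else
    τ (ans.drop (ans.length - n₁)) (ans.take (ans.length - n₁)) with hσ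
  have e1 : ∀ C n, n ≤ n₁ → sAns σ C n = sAns σ₁ C n := by
    intro C n
    induction n with
    | zero => intro _; rfl
    | succ n ih =>
      intro hn
      rw [sAns, sAns, ih (by omega)]
      have h4 : (sAns σ₁ C n).length = n := S6a_len _ _ _
      have : σ (sAns σ₁ C n) = σ₁ (sAns σ₁ C n) := by
        simp only [hσ, h4]
        rw [if_pos (by omega)]
      rw [this]
  have e2 : ∀ C m, sAns σ C (n₁ + m) =
      sAns (τ (sAns σ₁ C n₁)) C m ++ sAns σ₁ C n₁ := by
    intro C m
    induction m with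
    | zero => rw [Nat.add_zero, e1 C n₁ le_rfl]; rfl
    | succ m ih =>
      rw [← Nat.add_assoc, sAns, ih, sAns, List.cons_append]
      have l1 : (sAns (τ (sAns σ₁ C n₁)) C m).length = m := S6a_len _ _ _
      have l2 : (sAns σ₁ C n₁).length = n₁ := S6a_len _ _ _
      have : σ (sAns (τ (sAns σ₁ C n₁)) C m ++ sAns σ₁ C n₁) =
          τ (sAns σ₁ C n₁) (sAns (τ (sAns σ₁ C n₁)) C m) := by
        simp only [hσ, List.length_append, l1, l2]
        rw [if_neg (by omega)]
        have l3 : m + n₁ - n₁ = m := by omega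
        rw [l3, List.drop_left' l1, List.take_left' l1]
      rw [this]
  refine ⟨σ, ?_, ?_⟩
  · intro ans q h
    rw [hσ] at h
    dsimp only at h
    split_ifs at h
    · exact a1 _ _ h
    · exact τok _ _ _ h
  · intro C hC C' hC' e
    rw [e2, e2] at e
    have l1 : (sAns σ₁ C n₁).length = (sAns σ₁ C' n₁).length := by rw [S6a_len, S6a_len]
    obtain ⟨e3, e4⟩ := List.append_inj' e l1
    have e5 : F C = F C' := a2 C hC C' hC' e4
    rw [τval C hC, τval C' hC', ← e5] at e3
    have e6 := b2 (F C) C ⟨hC, rfl⟩ C' ⟨hC', e5.symm⟩ e3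
    exact Prod.ext e5 e6

section

variable {L : Type} (acc : Oracle → L → Prop) (Cert : Set (List (List Bool) × Oracle × L × Bool))

/-- the certificate chosen from the knowledge -/
noncomputable def S6a_ch (τ : Bool) (Q : List (List Bool)) (vals : List Bool) :
    Option (List (List Bool) × Oracle × L × Bool) :=
  if h : ∃ c ∈ Cert, c.2.2.2 = τ ∧ Q.map c.2.1 = vals then some h.choose else none

/-- one round, with the new answers -/
noncomputable def S6a_step (τ : Bool) (C : Oracle) (s : List (List Bool) × List Bool × Prop) :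
    List (List Bool) × List Bool × Prop :=
  match S6a_ch Cert τ s.1 s.2.1 with
  | none => s
  | some c => (s.1 ++ c.1, s.2.1 ++ c.1.map C, s.2.2 ∨ acc C c.2.2.1)

noncomputable def S6a_st (τ : Bool) (C : Oracle) : ℕ → List (List Bool) × List Bool × Prop
  | 0 => ([], [], False)
  | r + 1 => S6a_step acc Cert τ C (S6a_st τ C r)

theorem S6a_ch_some {τ : Bool} {Q : List (List Bool)} {vals : List Bool}
    {c : List (List Bool) × Oracle × L × Bool} (h : S6a_ch Cert τ Q vals = some c) :
    c ∈ Cert ∧ c.2.2.2 = τ ∧ Q.map c.2.1 = vals := by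
  unfold S6a_ch at h
  split_ifs at h with h1
  rw [← Option.some.inj h]
  exact h1.choose_spec

theorem S6a_vals (τ : Bool) (C : Oracle) (r : ℕ) :
    (S6a_st acc Cert τ C r).2.1 = (S6a_st acc Cert τ C r).1.map C := by
  induction r with
  | zero => rfl
  | succ r ih =>
    rw [S6a_st, S6a_step]
    split
    · exact ih
    · simp [ih]

theorem S6a_flag (τ : Bool) (C : Oracle) (r : ℕ) (h : (S6a_st acc Cert τ C r).2.2) :
    ∃ l, acc C l := by
  induction r with
  | zero => exact absurd h (by simp [S6a_st])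
  | succ r ih =>
    rw [S6a_st, S6a_step] at h
    split at h
    · exact ih h
    · rcases h with h | h
      · exact ih h
      · exact ⟨_, h⟩

theorem S6a_step_det {Ω : Set Oracle} {okq : List Bool → Prop} {k : ℕ}
    (hacc : ∀ c ∈ Cert, Det Set.univ okq k fun C => acc C c.2.2.1)
    (hlen : ∀ c ∈ Cert, c.1.length ≤ k ∧ ∀ q ∈ c.1, okq q) (τ : Bool)
    (s : List (List Bool) × List Bool × Prop) :
    Det Ω okq (k + k) fun C => S6a_step acc Cert τ C s := by
  rcases h : S6a_ch Cert τ s.1 s.2.1 with _ | c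
  · refine S6a_congr (S6a_const Ω okq (k + k) s) fun C _ => ?_
    rw [S6a_step, h]
  · have hc := (S6a_ch_some Cert h).1
    have h1 : Det Ω okq k fun C => acc C c.2.2.1 := S6a_anti (hacc c hc) (Set.subset_univ _)
    have h2 : ∀ v, Det (Ω ∩ {C | acc C c.2.2.1 = v}) okq k fun C => c.1.map C := fun v =>
      S6a_mono (S6a_anti (S6a_list okq c.1 (hlen c hc).2) (Set.subset_univ _)) (hlen c hc).1
    have h3 := S6a_comp (S6a_seq h1 h2)
      (fun v : Prop × List Bool => (s.1 ++ c.1, s.2.1 ++ v.2, s.2.2 ∨ v.1))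
    refine S6a_congr h3 fun C _ => ?_
    rw [S6a_step, h]

theorem S6a_st_det {Ω : Set Oracle} {okq : List Bool → Prop} {k : ℕ}
    (hacc : ∀ c ∈ Cert, Det Set.univ okq k fun C => acc C c.2.2.1)
    (hlen : ∀ c ∈ Cert, c.1.length ≤ k ∧ ∀ q ∈ c.1, okq q) (τ : Bool) (r : ℕ) :
    Det Ω okq (r * (k + k)) fun C => S6a_st acc Cert τ C r := by
  induction r with
  | zero => exact S6a_const _ _ _ _
  | succ r ih =>
    have h1 := S6a_seq (G := fun C => S6a_st acc Cert τ C (r + 1)) ih (n₂ := k + k) (by
      intro v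
      refine S6a_congr (S6a_step_det acc Cert (Ω := Ω ∩ {C | S6a_st acc Cert τ C r = v})
        hacc hlen τ v) fun C hC => ?_
      rw [S6a_st, hC.2])
    have h2 := S6a_comp h1 Prod.snd
    rw [Nat.succ_mul]
    exact h2

/-- if no round finds the witness, the knowledge about its certificate grows -/
theorem S6a_grow (τ : Bool) (C : Oracle) (D₀ : List (List Bool)) (l₀ : L)
    (h0 : (D₀, C, l₀, τ) ∈ Cert) (hl : acc C l₀)
    (hcon : ∀ c ∈ Cert, ∀ c' ∈ Cert, c.2.2.2 = c'.2.2.2 →
      (∀ q ∈ c.1, q ∈ c'.1 → c.2.1 q = c'.2.1 q) → c.2.2.1 = c'.2.2.1) (r : ℕ) :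
    (S6a_st acc Cert τ C r).2.2 ∨
      (D₀.filter fun q => q ∉ (S6a_st acc Cert τ C r).1).length + r ≤ D₀.length := by
  induction r with
  | zero => right; simpa using List.length_filter_le _ _
  | succ r ih =>
    rcases ih with ih | ih
    · left
      rw [S6a_st, S6a_step]
      split
      · exact ih
      · exact Or.inl ih
    · rw [S6a_st, S6a_step]
      have hex : ∃ c ∈ Cert, c.2.2.2 = τ ∧
          (S6a_st acc Cert τ C r).1.map c.2.1 = (S6a_st acc Cert τ C r).2.1 :=
        ⟨(D₀, C, l₀, τ), h0, rfl, (S6a_vals acc Cert τ C r).symm⟩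
      rcases h : S6a_ch Cert τ (S6a_st acc Cert τ C r).1 (S6a_st acc Cert τ C r).2.1 with _ | c
      · exfalso
        unfold S6a_ch at h
        rw [dif_pos hex] at h
        simp at h
      · obtain ⟨hc1, hc2, hc3⟩ := S6a_ch_some Cert h
        by_cases hcl : c.2.2.1 = l₀
        · left
          exact Or.inr (hcl ▸ hl)
        · right
          have h4 : ¬ ∀ q ∈ c.1, q ∈ D₀ → c.2.1 q = C q := fun h4 =>
            hcl (hcon c hc1 _ h0 hc2 h4)
          push Not at h4
          obtain ⟨q, hq1, hq2, hq3⟩ := h4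
          have hq4 : q ∉ (S6a_st acc Cert τ C r).1 := by
            intro hq
            rw [S6a_vals] at hc3
            exact hq3 (List.map_inj_left.1 hc3 q hq)
          have h5 : (D₀.filter fun q => q ∉ (S6a_st acc Cert τ C r).1 ++ c.1) =
              (D₀.filter fun q => q ∉ (S6a_st acc Cert τ C r).1).filter
                fun q => q ∉ (S6a_st acc Cert τ C r).1 ++ c.1 := by
            rw [List.filter_filter]
            apply List.filter_congr
            intro x _
            by_cases hx : x ∈ (S6a_st acc Cert τ C r).1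
            · simp [hx]
            · simp [hx]
          have h6 : (D₀.filter fun q => q ∉ (S6a_st acc Cert τ C r).1 ++ c.1).length <
              (D₀.filter fun q => q ∉ (S6a_st acc Cert τ C r).1).length := by
            rw [h5]
            rw [List.length_filter_lt_length_iff_exists]
            refine ⟨q, ?_, ?_⟩
            · rw [List.mem_filter]
              exact ⟨hq2, by simpa using hq4⟩
            · simp [hq1]
          dsimp only
          omega

end

/-- If the witnesses `l` with `acc C l` have certificates `(D, C, l, τ)`, and two certificates with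
the same `τ` that do not contradict each other have the same witness, then the existence of a
witness is determined by few questions. -/
theorem search (Ω : Set Oracle) (okq : List Bool → Prop) (k : ℕ) {L : Type}
    (acc : Oracle → L → Prop) (Cert : Set (List (List Bool) × Oracle × L × Bool))
    (hacc : ∀ c ∈ Cert, Det Set.univ okq k fun C => acc C c.2.2.1)
    (hlen : ∀ c ∈ Cert, c.1.length ≤ k ∧ ∀ q ∈ c.1, okq q)
    (hreal : ∀ C ∈ Ω, ∀ l, acc C l → ∃ D τ, (D, C, l, τ) ∈ Cert)
    (hcon : ∀ c ∈ Cert, ∀ c' ∈ Cert, c.2.2.2 = c'.2.2.2 →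
      (∀ q ∈ c.1, q ∈ c'.1 → c.2.1 q = c'.2.1 q) → c.2.2.1 = c'.2.2.1) :
    Det Ω okq (4 * k * (k + 1)) fun C => ∃ l, acc C l := by
  have h1 := S6a_st_det acc Cert (Ω := Ω) hacc hlen true (k + 1)
  have h2 := fun v => S6a_anti (S6a_st_det acc Cert (Ω := Ω) hacc hlen false (k + 1))
    (Set.inter_subset_left (s := Ω) (t := {C | S6a_st acc Cert true C (k + 1) = v}))
  have h3 := S6a_comp (S6a_seq h1 h2) (fun v => v.1.2.2 ∨ v.2.2.2)
  have e : (k + 1) * (k + k) + (k + 1) * (k + k) = 4 * k * (k + 1) := by ring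
  rw [e] at h3
  refine S6a_congr h3 fun C hC => propext ⟨?_, ?_⟩
  · rintro (h | h)
    · exact S6a_flag acc Cert true C _ h
    · exact S6a_flag acc Cert false C _ h
  · rintro ⟨l, hl⟩
    obtain ⟨D, τ, hD⟩ := hreal C hC l hl
    have hk : D.length ≤ k := (hlen _ hD).1
    have h5 := S6a_grow acc Cert τ C D l hD hl hcon (k + 1)
    have h6 : (S6a_st acc Cert τ C (k + 1)).2.2 := by
      rcases h5 with h5 | h5
      · exact h5
      · omega
    cases τ
    · exact Or.inr h6
    · exact Or.inl h6

end Pool.Agent.PudSat
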