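import Mathlib
import Pool.Agent.PudSat.S1

set_option autoImplicit false

/-!
# S6b: closed sets of words
-/

namespace Pool.Agent.PudSat

open N68a2faeb N793a5b8e N487b59b3 Pool.Agent.Helper22 Pool.Agent.PudOr Pool.Agent.PudTal
  Pool.Agent.PudOpt
open scoped Classical


/-- `D` contains the words used by the functions in its code words and, for the true ones outside
`st`, the words used by some witness -/
def Closed (act : Act) (st : List ℕ) (C : Oracle) (D : Finset (List Bool)) : Prop :=
  ∀ e w N, cw e w N ∈ D → QB (enumF e) w N →
    (∀ q ∈ used act (enumF e) C w, q ∈ D) ∧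
    (C (cw e w N) = true → e ∉ st → ∃ u, KcP act ((enumF e).run (Xo act C) w) u C ∧
      ∀ q ∈ used act (enumV (cf (cf ((enumF e).run (Xo act C) w))).length) C
        (cs (cf ((enumF e).run (Xo act C) w)), u), q ∈ D)

/-- used words are shorter than the bound -/
theorem S6b_used_lt {act : Act} (hs : Short act) {α β : Type} [N487b59b3 α] [N487b59b3 β]
    (M : OracleProc α β) {a : α} {N : ℕ} (h : QB M a N) {C : Oracle} :
    ∀ q ∈ used act M C a, q.length < N := by
  intro q hq
  obtain ⟨n, hn, hz⟩ := (mem_used act M C a q).1 hq
  refine (hs _ _ hz).trans_lt (h.2 _ ?_)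
  rw [OracleProc.answers_length]
  omega

/-- the number of used words -/
theorem S6b_used_card (act : Act) {α β : Type} [N487b59b3 α] [N487b59b3 β]
    (M : OracleProc α β) {a : α} {N : ℕ} (h : QB M a N) {C : Oracle} :
    (used act M C a).length ≤ N := (used_length act M C a).trans h.1

theorem Closed.union {act : Act} {st : List ℕ} {C : Oracle} {D D' : Finset (List Bool)}
    (h : Closed act st C D) (h' : Closed act st C D') : Closed act st C (D ∪ D') := by
  intro e w N he hq
  rcases Finset.mem_union.1 he with h1 | h1
  · obtain ⟨h2, h3⟩ := h e w N h1 hq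
    refine ⟨fun q hq => Finset.mem_union_left _ (h2 q hq), fun h4 h5 => ?_⟩
    obtain ⟨u, h6, h7⟩ := h3 h4 h5
    exact ⟨u, h6, fun q hq => Finset.mem_union_left _ (h7 q hq)⟩
  · obtain ⟨h2, h3⟩ := h' e w N h1 hq
    refine ⟨fun q hq => Finset.mem_union_right _ (h2 q hq), fun h4 h5 => ?_⟩
    obtain ⟨u, h6, h7⟩ := h3 h4 h5
    exact ⟨u, h6, fun q hq => Finset.mem_union_right _ (h7 q hq)⟩

/-- from words to lists -/
theorem S6b_list {act : Act} {C : Oracle} (st : List ℕ) (U : List (List Bool))
    (h : ∀ q ∈ U, ∃ D : Finset (List Bool), q ∈ D ∧ Closed act st C D ∧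
      D.card ≤ q.length + 1 ∧ ∀ q' ∈ D, q'.length ≤ q.length) :
    ∃ D : Finset (List Bool), (∀ q ∈ U, q ∈ D) ∧
      Closed act st C D ∧ D.card ≤ (U.map fun q => q.length + 1).sum ∧
      ∀ n, (∀ q ∈ U, q.length ≤ n) → ∀ q ∈ D, q.length ≤ n := by
  induction U with
  | nil =>
    refine ⟨∅, by simp, ?_, by simp, by simp⟩
    intro e w N he
    exact absurd he (Finset.notMem_empty _)
  | cons a U ih =>
    obtain ⟨D, h1, h2, h3, h4⟩ := ih fun q hq => h q (List.mem_cons_of_mem _ hq)
    obtain ⟨D', g1, g2, g3, g4⟩ := h a List.mem_cons_self
    refine ⟨D' ∪ D, ?_, g2.union h2, ?_, ?_⟩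
    · intro q hq
      rcases List.mem_cons.1 hq with rfl | hq
      · exact Finset.mem_union_left _ g1
      · exact Finset.mem_union_right _ (h1 q hq)
    · refine (Finset.card_union_le _ _).trans ?_
      rw [List.map_cons, List.sum_cons]
      omega
    · intro n hn q hq
      rcases Finset.mem_union.1 hq with hq | hq
      · exact (g4 q hq).trans (hn a List.mem_cons_self)
      · exact h4 n (fun q' hq' => hn q' (List.mem_cons_of_mem _ hq')) q hq

/-- the closure of a list of short words is small -/
theorem S6b_sum_le (U : List (List Bool)) (N : ℕ) (h : ∀ q ∈ U, q.length < N) :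
    (U.map fun q => q.length + 1).sum ≤ U.length * N := by
  induction U with
  | nil => simp
  | cons a U ih =>
    have h1 := ih fun q hq => h q (List.mem_cons_of_mem _ hq)
    have h2 := h a List.mem_cons_self
    rw [List.map_cons, List.sum_cons, List.length_cons, Nat.add_mul, Nat.one_mul]
    omega

/-- the closure of one word -/
theorem S6b_one {act : Act} (hs : Short act) {W : World} {C : Oracle} (hC : Hat act W C)
    (st : List ℕ) (k : ℕ) : ∀ q : List Bool, q.length = k → ∃ D : Finset (List Bool), q ∈ D ∧
      Closed act st C D ∧ D.card ≤ q.length + 1 ∧ ∀ q' ∈ D, q'.length ≤ q.length := by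
  induction k using Nat.strong_induction_on with
  | _ k ih =>
    intro q hk
    by_cases hex : ∃ e w N, q = cw e w N ∧ QB (enumF e) w N
    · obtain ⟨e, w, N, rfl, hqb⟩ := hex
      have hlen := cw_length e w N
      have u1 := S6b_used_lt hs (enumF e) hqb (C := C)
      have c1 := S6b_used_card act (enumF e) hqb (C := C)
      -- the list of words
      obtain ⟨U, hU1, hU2, hU3, hU4⟩ : ∃ U : List (List Bool), U.length ≤ 2 * N ∧
          (∀ q ∈ U, q.length < N) ∧ (∀ q ∈ used act (enumF e) C w, q ∈ U) ∧
          (C (cw e w N) = true → ∃ u, KcP act ((enumF e).run (Xo act C) w) u C ∧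
            ∀ q ∈ used act (enumV (cf (cf ((enumF e).run (Xo act C) w))).length) C
              (cs (cf ((enumF e).run (Xo act C) w)), u), q ∈ U) := by
        by_cases ht : C (cw e w N) = true
        · obtain ⟨_, _, hy, u, hu⟩ := (hC.cod e w N).1 ht
          have u2 := S6b_used_lt hs _ hu.2.1 (C := C)
          have c2 := S6b_used_card act _ hu.2.1 (C := C)
          refine ⟨used act (enumF e) C w ++
            used act (enumV (cf (cf ((enumF e).run (Xo act C) w))).length) C
              (cs (cf ((enumF e).run (Xo act C) w)), u), ?_, ?_, ?_, ?_⟩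
          · rw [List.length_append]
            omega
          · intro q hq
            rcases List.mem_append.1 hq with hq | hq
            · exact u1 q hq
            · exact (u2 q hq).trans_le hy
          · intro q hq
            exact List.mem_append_left _ hq
          · intro _
            exact ⟨u, hu, fun q hq => List.mem_append_right _ hq⟩
        · refine ⟨used act (enumF e) C w, by omega, u1, fun q hq => hq, fun h => absurd h ht⟩
      have hNk : N ≤ k := by
        rw [← hk, hlen]
        omega
      obtain ⟨D, h1, h2, h3, h4⟩ := S6b_list (act := act) (C := C) st U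
        fun q hq => ih q.length ((hU2 q hq).trans_le hNk) q rfl
      have h5 := S6b_sum_le U N hU2
      have h6 : U.length * N ≤ 2 * N * N := Nat.mul_le_mul_right N hU1
      refine ⟨insert (cw e w N) D, Finset.mem_insert_self _ _, ?_, ?_, ?_⟩
      · intro e' w' N' he' hq'
        rcases Finset.mem_insert.1 he' with h7 | h7
        · obtain ⟨rfl, rfl, rfl⟩ := cw_inj h7
          refine ⟨fun q hq => Finset.mem_insert_of_mem (h1 q (hU3 q hq)), fun h8 _ => ?_⟩
          obtain ⟨u, h9, h10⟩ := hU4 h8
          exact ⟨u, h9, fun q hq => Finset.mem_insert_of_mem (h1 q (h10 q hq))⟩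
        · obtain ⟨h8, h9⟩ := h2 e' w' N' h7 hq'
          refine ⟨fun q hq => Finset.mem_insert_of_mem (h8 q hq), fun h10 h11 => ?_⟩
          obtain ⟨u, h12, h13⟩ := h9 h10 h11
          exact ⟨u, h12, fun q hq => Finset.mem_insert_of_mem (h13 q hq)⟩
      · refine (Finset.card_insert_le _ _).trans ?_
        rw [hlen]
        omega
      · intro q hq
        rcases Finset.mem_insert.1 hq with rfl | hq
        · exact le_rfl
        · have h7 := h4 N (fun q hq => (hU2 q hq).le) q hq
          rw [hlen]
          omega
    · refine ⟨{q}, Finset.mem_singleton_self _, ?_, ?_, ?_⟩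
      · intro e w N he hq
        exact absurd ⟨e, w, N, (Finset.mem_singleton.1 he).symm, hq⟩ hex
      · rw [Finset.card_singleton]
        omega
      · intro q' hq'
        rw [Finset.mem_singleton.1 hq']

theorem exists_closed {act : Act} (hs : Short act) {W : World} {C : Oracle} (hC : Hat act W C)
    (st : List ℕ) (U : List (List Bool)) : ∃ D : Finset (List Bool), (∀ q ∈ U, q ∈ D) ∧
      Closed act st C D ∧ D.card ≤ (U.map fun q => q.length + 1).sum ∧
      ∀ n, (∀ q ∈ U, q.length ≤ n) → ∀ q ∈ D, q.length ≤ n :=
  S6b_list st U fun q _ => S6b_one hs hC st q.length q rfl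

/-- the set of all words of length at most `n` is closed -/
theorem closed_short {act : Act} (hs : Short act) {W : World} {C : Oracle} (hC : Hat act W C)
    (st : List ℕ) (n : ℕ) {D : Finset (List Bool)} (hD : ∀ q : List Bool, q ∈ D ↔ q.length ≤ n) :
    Closed act st C D := by
  intro e w N he hq
  have hlen := cw_length e w N
  have h0 := (hD _).1 he
  refine ⟨fun q h1 => (hD q).2 ?_, fun h1 _ => ?_⟩
  · have h2 := S6b_used_lt hs (enumF e) hq q h1
    omega
  · obtain ⟨_, _, hy, u, hu⟩ := (hC.cod e w N).1 h1
    refine ⟨u, hu, fun q h3 => (hD q).2 ?_⟩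
    have h2 := S6b_used_lt hs _ hu.2.1 q h3
    omega

/-- a world that agrees with `W₁` on the free words and the requests of a closed set agrees with it
on the closed set -/
theorem follow {act : Act} (hs : Short act) {c : CondS}
    (hsound : ∀ e ∈ c.st, ∀ W, Comp c W → ∀ w, PSn act e w W) {W₁ W : World}
    (h₁ : Comp c W₁) (h : Comp c W) {D : Finset (List Bool)}
    (hD : Closed act c.st (hat act W₁) D) (hA : ∀ q, false :: q ∈ D → W.1 q = W₁.1 q)
    (hR : ∀ q ∈ D, sc c.J ≤ q.length → (∀ e ∈ c.st, ∀ w N, q ≠ cw e w N) →
      W.2 q = hat act W₁ q) : ∀ q ∈ D, hat act W q = hat act W₁ q := by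
  have s1 := hat_spec hs W₁
  have s2 := hat_spec hs W
  have key : ∀ k : ℕ, ∀ q : List Bool, q.length = k → q ∈ D →
      hat act W q = hat act W₁ q := by
    intro k
    induction k using Nat.strong_induction_on with
    | _ k ih =>
      intro q hk hq
      match q, hk, hq with
      | [], _, _ => rw [s1.nil, s2.nil]
      | false :: q', _, hq =>
        rw [s1.gen, s2.gen]
        exact hA q' hq
      | true :: q', hk, hq =>
        by_cases hex : ∃ e w N, true :: q' = cw e w N
        · obtain ⟨e, w, N, he⟩ := hex
          rw [he] at hk hq ⊢
          have hlen := cw_length e w N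
          by_cases hJ : (cw e w N).length < sc c.J
          · have hag : AgreeW (cw e w N).length W W₁ := by
              constructor
              · intro q hq
                rw [Bool.eq_iff_iff, h.pos q (hq.trans_lt hJ), h₁.pos q (hq.trans_lt hJ)]
              · intro q hq
                rw [Bool.eq_iff_iff, h.rq q (hq.trans_lt hJ), h₁.rq q (hq.trans_lt hJ)]
            exact hat_agree hs hag _ le_rfl
          · push Not at hJ
            by_cases hqb : QB (enumF e) w N
            · obtain ⟨d1, d2⟩ := hD e w N hq hqb
              have ih' : ∀ q ∈ D, q.length < N → hat act W q = hat act W₁ q := by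
                intro q hq hlt
                exact ih q.length (by omega) q rfl hq
              have hrun : (enumF e).run (Xo act (hat act W)) w =
                  (enumF e).run (Xo act (hat act W₁)) w := by
                refine run_used act (enumF e) fun q hq => ih' q (d1 q hq) ?_
                exact S6b_used_lt hs (enumF e) hqb q hq
              by_cases hst : e ∈ c.st
              · have r1 := h₁.st e hst w N hJ
                have r2 := h.st e hst w N hJ
                have p1 := of_decide_eq_true (hsound e hst W₁ h₁ w)
                have p2 := of_decide_eq_true (hsound e hst W h w)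
                rw [Bool.eq_iff_iff, s1.cod, s2.cod]
                unfold TrueC
                rw [hrun]
                rw [hrun] at p2
                constructor
                · rintro ⟨_, _, h3, _⟩
                  exact ⟨r1, hqb, h3, p1⟩
                · rintro ⟨_, _, h3, _⟩
                  exact ⟨r2, hqb, h3, p2⟩
              · have hr := hR _ hq hJ (by
                  intro e' he' w' N' heq
                  obtain ⟨rfl, _, _⟩ := cw_inj heq
                  exact hst he')
                rw [Bool.eq_iff_iff]
                constructor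
                · intro h3
                  rw [← hr]
                  exact ((s2.cod e w N).1 h3).1
                · intro h3
                  obtain ⟨u, hu, hu2⟩ := d2 h3 hst
                  have hy := ((s1.cod e w N).1 h3).2.2.1
                  refine (s2.cod e w N).2 ⟨by rw [hr]; exact h3, hqb, ?_, u, ?_⟩
                  · rw [hrun]
                    exact hy
                  · rw [hrun]
                    refine ⟨hu.1, hu.2.1, ?_⟩
                    rw [run_used act _ (C := hat act W₁) (C' := hat act W) fun q hq =>
                      ih' q (hu2 q hq) ((S6b_used_lt hs _ hu.2.1 q hq).trans_le hy)]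
                    exact hu.2.2
            · rw [Bool.eq_iff_iff, s1.cod, s2.cod]
              constructor
              · rintro ⟨_, h3, _⟩
                exact absurd h3 hqb
              · rintro ⟨_, h3, _⟩
                exact absurd h3 hqb
        · push Not at hex
          rw [s1.oth q' hex, s2.oth q' hex]
  exact fun q hq => key q.length q rfl hq

end Pool.Agent.PudSat
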