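import Mathlib
import Pool.Agent.PudSat.S6a
import Pool.Agent.PudSat.S6b

set_option autoImplicit false

/-!
# S6c: UP languages are determined by few questions
-/

namespace Pool.Agent.PudSat

open N68a2faeb N793a5b8e N487b59b3 Pool.Agent.Helper22 Pool.Agent.PudOr Pool.Agent.PudTal
  Pool.Agent.PudOpt
open scoped Classical

theorem S6c_mono {Ω : Set Oracle} {okq okq' : List Bool → Prop} {n n' : ℕ} {β : Type}
    {F : Oracle → β} (h : Det Ω okq n F) (hn : n ≤ n') (hq : ∀ q, okq q → okq' q) :
    Det Ω okq' n' F := by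
  obtain ⟨σ, h1, h2⟩ := h
  obtain ⟨k, rfl⟩ := Nat.exists_eq_add_of_le hn
  refine ⟨σ, fun ans q h => hq q (h1 ans q h), fun C hC C' hC' h => h2 C hC C' hC' ?_⟩
  exact A5a_sAns_le k h

/-- the run of a procedure is determined by its answers -/
theorem S6c_run {act : Act} (hs : Short act) {β γ : Type} [N487b59b3 β] [N487b59b3 γ]
    (M : OracleProc β γ) {a : β} {N n k : ℕ} (h : QB M a N) (hN : N ≤ n + 1) (hk : N ≤ k) :
    Det Set.univ (fun q => q.length ≤ n) k fun C => M.run (Xo act C) a := by
  refine ⟨fun ans => if ans.length < (M.clock a).length then act (M.query (a, ans))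
    else .inl false, ?_, ?_⟩
  · intro ans q hq
    by_cases h1 : ans.length < (M.clock a).length
    · simp only [if_pos h1] at hq
      have h2 := hs _ _ hq
      have h3 := h.2 ans h1.le
      omega
    · simp only [if_neg h1] at hq
      cases hq
  · intro C _ C' _ hC
    have h1 : ∀ (C : Oracle) (m : ℕ), m ≤ (M.clock a).length →
        sAns (fun ans => if ans.length < (M.clock a).length then act (M.query (a, ans))
          else .inl false) C m = M.answers (Xo act C) a m := by
      intro C m
      induction m with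
      | zero => intro _; rfl
      | succ m ih =>
        intro hm
        rw [sAns, OracleProc.answers, ih (by omega)]
        simp only [OracleProc.answers_length]
        rw [if_pos (by omega)]
        rfl
    have h2 : (M.clock a).length ≤ k := h.1.trans hk
    obtain ⟨d, rfl⟩ := Nat.exists_eq_add_of_le h2
    have h3 := A5a_sAns_le d hC
    rw [h1 C _ le_rfl, h1 C' _ le_rfl] at h3
    change M.run (Xo act C) a = M.run (Xo act C') a
    rw [OracleProc.run, OracleProc.run, h3]

/-- a certificate for the witness `w` of `x` -/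
structure S6cCert (act : Act) (c : CondS) (e : Ver) (x : List Bool) (K P B : ℕ)
    (W₁ : World) (D D' : Finset (List Bool)) (w : List Bool) (τ : Bool) : Prop where
  comp : Comp c W₁
  len : w.length ≤ e.2.eval x.length
  run : e.1.run (Xo act (hat act W₁)) (x, w) = true
  mem : ∀ q : List Bool, q ∈ D ↔ 2 ^ q.length ≤ B ∨ q ∈ D'
  closed : Closed act c.st (hat act W₁) D
  used : ∀ q ∈ used act e.1 (hat act W₁) (x, w), q ∈ D'
  card : D'.card ≤ K
  length : ∀ q ∈ D', q.length ≤ P
  prot : ∀ j, c.J ≤ j → fam j < c.m → B < 2 ^ (sc j + 1) → ∀ y : List Bool, y.length + 1 = sc j →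
    false :: (!τ) :: y ∈ D → hat act W₁ (false :: (!τ) :: y) = false

/-- some word of the right length is not in a small set -/
theorem S6c_unused (n : ℕ) (b : Bool) (D : Finset (List Bool)) (hD : D.card < 2 ^ n) :
    ∃ y : List Bool, y.length = n ∧ false :: b :: y ∉ D := by
  by_contra hcon
  push Not at hcon
  have h1 : ((words n).map (fun y => false :: b :: y)).toFinset ⊆ D := by
    intro q hq
    rw [List.mem_toFinset, List.mem_map] at hq
    obtain ⟨y, hy, rfl⟩ := hq
    exact hcon y (mem_words.1 hy)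
  have h2 := Finset.card_le_card h1
  have h3 : (words n).Nodup := by
    clear hcon h1 h2 hD
    induction n with
    | zero => simp [words]
    | succ n ih =>
      rw [words, List.nodup_append]
      refine ⟨ih.map (fun a b h => (List.cons.inj h).2), ih.map (fun a b h => (List.cons.inj h).2),
        ?_⟩
      intro a ha b hb hab
      rw [List.mem_map] at ha hb
      obtain ⟨a', _, rfl⟩ := ha
      obtain ⟨b', _, rfl⟩ := hb
      simp at hab
  rw [List.toFinset_card_of_nodup (h3.map (fun a b h => (List.cons.inj (List.cons.inj h).2).2)),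
    List.length_map, A5a_words_length] at h2
  omega

/-- two certificates that do not contradict each other are realised in one world -/
theorem S6c_merge {act : Act} (hs : Short act) {c : CondS}
    (hsound : ∀ e ∈ c.st, ∀ W, Comp c W → ∀ w, PSn act e w W) {e : Ver}
    {x : List Bool} (huniq : ∀ W, Comp c W → PUq act e x W) {K P B : ℕ}
    (hB : 16 * K + 16 ≤ B) (hJ : 2 ^ sc c.J ≤ B) {W₁ W₂ : World} {D₁ D₁' D₂ D₂' : Finset (List Bool)}
    {w₁ w₂ : List Bool} {τ : Bool} (h₁ : S6cCert act c e x K P B W₁ D₁ D₁' w₁ τ)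
    (h₂ : S6cCert act c e x K P B W₂ D₂ D₂' w₂ τ)
    (hag : ∀ q ∈ D₁, q ∈ D₂ → hat act W₁ q = hat act W₂ q) : w₁ = w₂ := by
  have hH₁ := hat_spec hs W₁
  have hH₂ := hat_spec hs W₂
  -- the unused words
  have hfill : ∀ j, B < 2 ^ (sc j + 1) → ∃ y : List Bool, y.length + 1 = sc j ∧
      false :: τ :: y ∉ D₁ ∧ false :: τ :: y ∉ D₂ := by
    intro j hj
    have h2 : 2 ≤ sc j := by have := le_sc j; omega
    obtain ⟨s, hs'⟩ : ∃ s, sc j = s + 1 := ⟨sc j - 1, by omega⟩
    have h3 : (D₁' ∪ D₂').card < 2 ^ s := by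
      have h4 := Finset.card_union_le D₁' D₂'
      have h5 := h₁.card
      have h6 := h₂.card
      rw [hs', pow_succ, pow_succ] at hj
      omega
    obtain ⟨y, hy, hyD⟩ := S6c_unused s τ _ h3
    rw [Finset.mem_union, not_or] at hyD
    have h7 : ¬ 2 ^ (false :: τ :: y).length ≤ B := by
      rw [List.length_cons, List.length_cons, hy]
      rw [hs'] at hj
      omega
    refine ⟨y, by omega, ?_, ?_⟩
    · rw [h₁.mem, not_or]; exact ⟨h7, hyD.1⟩
    · rw [h₂.mem, not_or]; exact ⟨h7, hyD.2⟩
  choose! Y hY1 hY2 hY3 using hfill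
  set W : World := (fun q => if false :: q ∈ D₁ then W₁.1 q else if false :: q ∈ D₂ then W₂.1 q
    else decide (∃ j, c.J ≤ j ∧ fam j < c.m ∧ B < 2 ^ (sc j + 1) ∧ q = τ :: Y j),
    fun q => if q.length < sc c.J then W₁.2 q else
      if ∃ e ∈ c.st, ∃ w N, q = cw e w N then true else
      if q ∈ D₁ then hat act W₁ q else if q ∈ D₂ then hat act W₂ q else false) with hW
  have hW1 : ∀ q, false :: q ∈ D₁ → W.1 q = W₁.1 q := by
    intro q hq
    simp only [hW, if_pos hq]
  have hW2 : ∀ q, false :: q ∈ D₂ → W.1 q = W₂.1 q := by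
    intro q hq
    by_cases hq1 : false :: q ∈ D₁
    · rw [hW1 q hq1, ← hH₁.gen, ← hH₂.gen]
      exact hag _ hq1 hq
    · simp only [hW, if_neg hq1, if_pos hq]
  have hcomp : Comp c W := by
    refine ⟨?_, ?_, ?_, ?_⟩
    · intro q hq
      rw [hW1 q]
      · exact h₁.comp.pos q hq
      · rw [h₁.mem]
        left
        refine le_trans (Nat.pow_le_pow_right (by norm_num) ?_) hJ
        rw [List.length_cons]
        omega
    · intro q hq
      simp only [hW, if_pos hq]
      exact h₁.comp.rq q hq
    · intro e he w N hN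
      simp only [hW, if_neg (show ¬ (cw e w N).length < sc c.J by omega)]
      rw [if_pos ⟨e, he, w, N, rfl⟩]
    · intro j hj hf
      by_cases hjB : 2 ^ (sc j + 1) ≤ B
      · have h3 : ∀ (b : Bool) (y : List Bool), y.length + 1 = sc j →
            W.1 (b :: y) = W₁.1 (b :: y) := by
          intro b y hy
          apply hW1
          rw [h₁.mem]
          left
          rw [List.length_cons, List.length_cons, hy]
          exact hjB
        have h4 := h₁.comp.one j hj hf
        unfold One at h4 ⊢
        have h5 : ∀ b : Bool, (∃ y : List Bool, y.length + 1 = sc j ∧ W.1 (b :: y) = true) ↔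
            ∃ y : List Bool, y.length + 1 = sc j ∧ W₁.1 (b :: y) = true := by
          intro b
          refine exists_congr fun y => and_congr_right fun hy => ?_
          rw [h3 b y hy]
        rw [h5, h5]
        exact h4
      · have hjB' : B < 2 ^ (sc j + 1) := not_le.1 hjB
        have hpos : ∃ y : List Bool, y.length + 1 = sc j ∧ W.1 (τ :: y) = true := by
          refine ⟨Y j, hY1 j hjB', ?_⟩
          simp only [hW, if_neg (hY2 j hjB'), if_neg (hY3 j hjB')]
          rw [decide_eq_true]
          exact ⟨j, hj, hf, hjB', rfl⟩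
        have hneg : ¬ ∃ y : List Bool, y.length + 1 = sc j ∧ W.1 ((!τ) :: y) = true := by
          rintro ⟨y, hy, hyt⟩
          by_cases hq1 : false :: (!τ) :: y ∈ D₁
          · rw [hW1 _ hq1, ← hH₁.gen, h₁.prot j hj hf hjB' y hy hq1] at hyt
            exact absurd hyt (by decide)
          · by_cases hq2 : false :: (!τ) :: y ∈ D₂
            · rw [hW2 _ hq2, ← hH₂.gen, h₂.prot j hj hf hjB' y hy hq2] at hyt
              exact absurd hyt (by decide)
            · simp only [hW, if_neg hq1, if_neg hq2, decide_eq_true_eq] at hyt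
              obtain ⟨j', _, _, _, h⟩ := hyt
              have := (List.cons.inj h).1
              cases τ <;> simp at this
        unfold One
        cases τ
        · simp only [Bool.not_false] at hneg
          exact ⟨fun h => absurd h hneg, fun h => absurd hpos h⟩
        · simp only [Bool.not_true] at hneg
          exact ⟨fun _ => hneg, fun _ => hpos⟩
  have hf1 := follow hs hsound h₁.comp hcomp h₁.closed hW1 (by
    intro q hq hl hne
    simp only [hW, if_neg (show ¬ q.length < sc c.J by omega), if_pos hq]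
    rw [if_neg]
    rintro ⟨e, he, w, N, h⟩
    exact hne e he w N h)
  have hf2 := follow hs hsound h₂.comp hcomp h₂.closed hW2 (by
    intro q hq hl hne
    simp only [hW, if_neg (show ¬ q.length < sc c.J by omega)]
    rw [if_neg]
    · by_cases hq1 : q ∈ D₁
      · rw [if_pos hq1]
        exact hag q hq1 hq
      · rw [if_neg hq1, if_pos hq]
    · rintro ⟨e, he, w, N, h⟩
      exact hne e he w N h)
  have hr1 : e.1.run (Xo act (hat act W)) (x, w₁) = true := by
    rw [run_used act e.1 (C := hat act W₁) (C' := hat act W)]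
    · exact h₁.run
    · intro q hq
      exact hf1 q ((h₁.mem q).2 (Or.inr (h₁.used q hq)))
  have hr2 : e.1.run (Xo act (hat act W)) (x, w₂) = true := by
    rw [run_used act e.1 (C := hat act W₂) (C' := hat act W)]
    · exact h₂.run
    · intro q hq
      exact hf2 q ((h₂.mem q).2 (Or.inr (h₂.used q hq)))
  exact huniq W hcomp w₁ w₂ h₁.len h₂.len hr1 hr2

/-- accepted witnesses have certificates -/
theorem S6c_exists {act : Act} (hs : Short act) {c : CondS} {e : Ver}
    {x : List Bool} {P B : ℕ} (hB0 : 0 < B) (hPB : 16 * P ≤ B) {w : List Bool}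
    (hQ : QB e.1 (x, w) P) {W : World} (hW : Comp c W) (hw : w.length ≤ e.2.eval x.length)
    (hrun : e.1.run (Xo act (hat act W)) (x, w) = true) :
    ∃ D D' τ, S6cCert act c e x (P * (P + 1)) P B W D D' w τ ∧ D.card ≤ 2 * B + P * (P + 1) := by
  have hH := hat_spec hs W
  have hlen : ∀ q ∈ used act e.1 (hat act W) (x, w), q.length < P := by
    intro q hq
    obtain ⟨n, hn, hz⟩ := (mem_used act e.1 _ _ q).1 hq
    exact lt_of_le_of_lt (hs _ _ hz) (hQ.2 _ (by rw [OracleProc.answers_length]; omega))
  obtain ⟨D', hU, hcl, hcard, hlenD⟩ := exists_closed hs hH c.st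
    (used act e.1 (hat act W) (x, w))
  have hD : ∀ q : List Bool, q ∈ (shortList B).toFinset ↔ q.length ≤ Nat.log 2 B := by
    intro q
    rw [List.mem_toFinset, mem_shortList hB0]
    exact (Nat.le_log_iff_pow_le (by norm_num) (by omega)).symm
  have hcl2 := closed_short hs hH c.st (Nat.log 2 B) hD
  have hcard' : D'.card ≤ P * (P + 1) := by
    refine hcard.trans ?_
    have h1 : ((used act e.1 (hat act W) (x, w)).map fun q => q.length + 1).sum ≤
        (used act e.1 (hat act W) (x, w)).length * (P + 1) := by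
      have h2 := List.sum_le_card_nsmul
        ((used act e.1 (hat act W) (x, w)).map fun q => q.length + 1) (P + 1) (by
          intro a ha
          rw [List.mem_map] at ha
          obtain ⟨q, hq, rfl⟩ := ha
          have := hlen q hq
          omega)
      rwa [List.length_map, smul_eq_mul] at h2
    refine h1.trans (Nat.mul_le_mul_right _ ?_)
    exact (used_length act e.1 _ _).trans hQ.1
  have hlenD' : ∀ q ∈ D', q.length ≤ P := hlenD P fun q hq => (hlen q hq).le
  have hcardU : ((shortList B).toFinset ∪ D').card ≤ 2 * B + P * (P + 1) := by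
    refine (Finset.card_union_le _ _).trans ?_
    have h1 := (List.toFinset_card_le (shortList B)).trans (shortList_length B hB0)
    omega
  -- the type
  have huni : ∀ j j', B < 2 ^ (sc j + 1) → sc j + 1 ≤ P → B < 2 ^ (sc j' + 1) → sc j' + 1 ≤ P →
      j = j' := by
    have key : ∀ j j', B < 2 ^ (sc j + 1) → sc j' + 1 ≤ P → ¬ j < j' := by
      intro j j' h1 h2 h3
      have h4 : sc (j + 1) ≤ sc j' := sc_strictMono.monotone h3
      rw [sc, pow_succ] at h4
      omega
    intro j j' h1 h2 h3 h4
    have h5 := key j j' h1 h4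
    have h6 := key j' j h3 h2
    omega
  obtain ⟨τ, hτ⟩ : ∃ τ : Bool, ∀ j, c.J ≤ j → fam j < c.m → B < 2 ^ (sc j + 1) → sc j + 1 ≤ P →
      ∀ y : List Bool, y.length + 1 = sc j → W.1 ((!τ) :: y) = false := by
    by_cases hj : ∃ j, c.J ≤ j ∧ fam j < c.m ∧ B < 2 ^ (sc j + 1) ∧ sc j + 1 ≤ P
    · obtain ⟨j, hj1, hj2, hj3, hj4⟩ := hj
      have hone := hW.one j hj1 hj2
      unfold One at hone
      by_cases ht : ∃ y : List Bool, y.length + 1 = sc j ∧ W.1 (true :: y) = true
      · refine ⟨true, ?_⟩
        intro j' h1 h2 h3 h4 y hy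
        obtain rfl := huni j j' hj3 hj4 h3 h4
        by_contra hne
        rw [Bool.not_eq_false] at hne
        exact (hone.1 ht) ⟨y, hy, hne⟩
      · refine ⟨false, ?_⟩
        intro j' h1 h2 h3 h4 y hy
        obtain rfl := huni j j' hj3 hj4 h3 h4
        by_contra hne
        rw [Bool.not_eq_false] at hne
        exact ht ⟨y, hy, hne⟩
    · refine ⟨true, ?_⟩
      intro j h1 h2 h3 h4
      exact absurd ⟨j, h1, h2, h3, h4⟩ hj
  refine ⟨(shortList B).toFinset ∪ D', D', τ, ⟨hW, hw, hrun, ?_, hcl2.union hcl, hU, hcard',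
    hlenD', ?_⟩, hcardU⟩
  · intro q
    rw [Finset.mem_union, List.mem_toFinset, mem_shortList hB0]
  · intro j h1 h2 h3 y hy hmem
    rw [hH.gen]
    refine hτ j h1 h2 h3 ?_ y hy
    rw [Finset.mem_union, List.mem_toFinset, mem_shortList hB0] at hmem
    rcases hmem with hmem | hmem
    · rw [List.length_cons, List.length_cons, hy] at hmem
      omega
    · have := hlenD' _ hmem
      rw [List.length_cons, List.length_cons, hy] at this
      exact this

theorem up_det {act : Act} (hs : Short act) {c : CondS}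
    (hsound : ∀ e ∈ c.st, ∀ W, Comp c W → ∀ w, PSn act e w W) (e : Ver)
    (huniq : ∀ W, Comp c W → ∀ x, PUq act e x W) :
    ∃ r : Polynomial ℕ, ∀ (x : List Bool) (n : ℕ), r.eval x.length ≤ n →
      Det (Om act c) (fun q => q.length ≤ n) n fun C => Acc act e x C := by
  obtain ⟨q₀, hq₀⟩ := QB_ver e
  let K1 : Polynomial ℕ := q₀ * (q₀ + 1)
  let Bp : Polynomial ℕ := 16 * (K1 + q₀ + Polynomial.C (2 ^ sc c.J) + 1)
  let Kp : Polynomial ℕ := 2 * Bp + K1 + q₀
  refine ⟨4 * Kp * (Kp + 1) + Kp, ?_⟩
  intro x n hn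
  set P := q₀.eval x.length with hP
  set B := 16 * (P * (P + 1) + P + 2 ^ sc c.J + 1) with hB
  set k := 2 * B + P * (P + 1) + P with hk
  have hKp : Kp.eval x.length = k := by
    simp only [Kp, Bp, K1, Polynomial.eval_add, Polynomial.eval_mul, Polynomial.eval_C,
      Polynomial.eval_one, Polynomial.eval_ofNat]
    rfl
  have hn' : 4 * k * (k + 1) + k ≤ n := by
    simp only [Polynomial.eval_add, Polynomial.eval_mul, Polynomial.eval_one,
      Polynomial.eval_ofNat, hKp] at hn
    exact hn
  have hJ0 : 0 < 2 ^ sc c.J := by positivity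
  have hB0 : 0 < B := by omega
  have hacc : (fun C => Acc act e x C) = fun C => ∃ w : List Bool,
      w.length ≤ e.2.eval x.length ∧ e.1.run (Xo act C) (x, w) = true := by
    funext C
    rfl
  rw [hacc]
  refine S6c_mono (search (Om act c) (fun q => q.length ≤ n) k
    (fun C w => w.length ≤ e.2.eval x.length ∧ e.1.run (Xo act C) (x, w) = true)
    {t | ∃ (W₁ : World) (D D' : Finset (List Bool)),
      S6cCert act c e x (P * (P + 1)) P B W₁ D D' t.2.2.1 t.2.2.2 ∧
      D.card ≤ 2 * B + P * (P + 1) ∧ t.1 = D.toList ∧ t.2.1 = hat act W₁} ?_ ?_ ?_ ?_)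
    (by omega) (fun q h => h)
  · rintro ⟨l, C₁, w, τ⟩ ⟨W₁, D, D', hc, -, rfl, rfl⟩
    have hQ := (hq₀ x P le_rfl w hc.len).2
    obtain ⟨σ, h1, h2⟩ := S6c_run (k := k) (n := n) hs e.1 hQ (by omega) (by omega)
    refine ⟨σ, h1, fun C hC C' hC' h => ?_⟩
    have h3 := h2 C hC C' hC' h
    simp only at h3 ⊢
    rw [h3]
  · rintro ⟨l, C₁, w, τ⟩ ⟨W₁, D, D', hc, hcard, rfl, rfl⟩
    refine ⟨?_, ?_⟩
    · simp only [Finset.length_toList]
      omega
    · intro q hq
      simp only [Finset.mem_toList] at hq
      rcases (hc.mem q).1 hq with h | h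
      · have h1 := Nat.lt_two_pow_self (n := q.length)
        change q.length ≤ n
        omega
      · have h1 := hc.length q h
        change q.length ≤ n
        omega
  · rintro C ⟨W, hW, rfl⟩ w ⟨hw, hrun⟩
    obtain ⟨D, D', τ, hc, hcard⟩ := S6c_exists (B := B) hs hB0 (by omega)
      ((hq₀ x P le_rfl w hw).2) hW hw hrun
    exact ⟨D.toList, τ, W, D, D', hc, hcard, rfl, rfl⟩
  · rintro ⟨l, C₁, w, τ⟩ ⟨W₁, D, D', hc, -, rfl, rfl⟩ ⟨l', C₂, w', τ'⟩
      ⟨W₂, D₂, D₂', hc₂, -, rfl, rfl⟩ hτ hag
    simp only at hτ hag ⊢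
    subst hτ
    refine S6c_merge hs hsound (fun W hW => huniq W hW x) (by omega) (by omega) hc hc₂ ?_
    intro q hq1 hq2
    exact hag q (Finset.mem_toList.2 hq1) (Finset.mem_toList.2 hq2)

end Pool.Agent.PudSat
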