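import Mathlib
import Pool.Agent.PudSat.S6c

set_option autoImplicit false

/-!
# S6: UP languages are in P
-/

namespace Pool.Agent.PudSat

open N68a2faeb N793a5b8e N487b59b3 Pool.Agent.Helper22 Pool.Agent.PudOr Pool.Agent.PudTal
  Pool.Agent.PudOpt
open scoped Classical

/-- a strategy with short questions does not see the long words -/
theorem S6_sAns {σ : Strat} {n : ℕ} (hσ : ∀ ans q, σ ans = .inr q → q.length ≤ n)
    {C C' : Oracle} (h : Agree n C C') (m : ℕ) : sAns σ C m = sAns σ C' m := by
  induction m with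
  | zero => rfl
  | succ m ih =>
    rw [sAns, sAns, ih]
    rcases hz : σ (sAns σ C' m) with b | q
    · rfl
    · have h1 : C q = C' q := h q (hσ _ _ hz)
      simp only [look, h1]

/-- acceptance with the cut action function -/
theorem S6_acc {act : Act} (hs : Short act) {e : Ver} {x : List Bool} {n : ℕ}
    (hq : ∀ w : List Bool, w.length ≤ e.2.eval x.length → w.length ≤ n ∧ QB e.1 (x, w) n)
    (W : World) :
    Acc (trunc act n) e x (hat (trunc act n) W) ↔ Acc act e x (hat act W) := by
  have key : ∀ w : List Bool, w.length ≤ e.2.eval x.length →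
      e.1.run (Xo (trunc act n) (hat (trunc act n) W)) (x, w) =
        e.1.run (Xo act (hat act W)) (x, w) := by
    intro w hw
    have h1 := (hq w hw).2
    rw [run_trunc act _ h1]
    exact run_local hs _ h1 (hat_trunc hs W n)
  constructor
  · rintro ⟨w, hw, hr⟩
    exact ⟨w, hw, by rw [← key w hw]; exact hr⟩
  · rintro ⟨w, hw, hr⟩
    exact ⟨w, hw, by rw [key w hw]; exact hr⟩

theorem S6_det {act : Act} (hs : Short act) {c : CondS} {e : Ver} {x : List Bool} {n : ℕ}
    (hq : ∀ w : List Bool, w.length ≤ e.2.eval x.length → w.length ≤ n ∧ QB e.1 (x, w) n)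
    (h : Det (Om act c) (fun q => q.length ≤ n) n fun C => Acc act e x C) :
    Det (Om (trunc act n) c) (fun q => q.length ≤ n) n fun C => Acc (trunc act n) e x C := by
  obtain ⟨σ, hσ, hd⟩ := h
  refine ⟨σ, hσ, ?_⟩
  rintro C ⟨W₁, hW₁, rfl⟩ C' ⟨W₂, hW₂, rfl⟩ hS
  rw [S6_sAns hσ (hat_trunc hs W₁ n) n, S6_sAns hσ (hat_trunc hs W₂ n) n] at hS
  have h1 : Acc act e x (hat act W₁) = Acc act e x (hat act W₂) :=
    hd _ ⟨W₁, hW₁, rfl⟩ _ ⟨W₂, hW₂, rfl⟩ hS
  show Acc (trunc act n) e x (hat (trunc act n) W₁) = Acc (trunc act n) e x (hat (trunc act n) W₂)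
  rw [eq_iff_iff, S6_acc hs hq W₁, S6_acc hs hq W₂, h1]

theorem up_P {act : Act} (hs : Short act) {c : CondS}
    (hsound : ∀ e ∈ c.st, ∀ W, Comp c W → ∀ w, PSn act e w W) (e : Ver)
    (huniq : ∀ W, Comp c W → ∀ x, PUq act e x W) {D : OracleProc (List Bool) Bool}
    (hD : Drives act D (thU e c)) {W : World} (hW : Comp c W) {A : DecisionProblem}
    (hA : ∀ x, A x = true ↔ Acc act e x (hat act W)) :
    A ∈ Pool.Agent.Helper20.Cons.Po (Xo act (hat act W)) := by
  obtain ⟨r, hr⟩ := up_det hs hsound e huniq
  obtain ⟨p, hp⟩ := QB_ver e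
  let g : List Bool → List Bool := fun x => cd x (un ((r + p).eval x.length))
  have hg : FP g := FP.cd FP.id (FP.un_poly FP.id (r + p))
  refine ⟨comap D g hg, fun x => ?_⟩
  rw [comap_run]
  set v := g x with hv
  have hcf : cf v = x := by rw [hv]; exact cf_cd _ _
  have hlen : r.eval x.length + p.eval x.length ≤ v.length := by
    have h1 : v = cd x (un ((r + p).eval x.length)) := rfl
    rw [h1, cd_length, un_length, Polynomial.eval_add]
    omega
  have hq := hp x v.length (by omega)
  have hdet : Det (Om (trunc act v.length) c) (fun q => q.length ≤ v.length) v.length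
      fun C => Acc (trunc act v.length) e (cf v) C := by
    rw [hcf]
    exact S6_det hs hq (hr x v.length (by omega))
  have hσ := hdet.choose_spec.1
  have hd := hdet.choose_spec.2
  have hth : thU e c (trunc act v.length) v = (hdet.choose, fun C => decide
      (∃ C' ∈ Om (trunc act v.length) c, sAns hdet.choose C' v.length =
        sAns hdet.choose C v.length ∧ Acc (trunc act v.length) e (cf v) C')) := by
    unfold thU
    rw [dif_pos hdet]
  rw [hD (hat act W) v ?_ ?_]
  · rw [hth]
    have hag := S6_sAns hσ (hat_trunc hs W v.length) v.length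
    have key : A x = true ↔ ∃ C' ∈ Om (trunc act v.length) c,
        sAns hdet.choose C' v.length = sAns hdet.choose (hat act W) v.length ∧
        Acc (trunc act v.length) e (cf v) C' := by
      rw [hA, ← S6_acc hs hq W]
      constructor
      · intro h
        exact ⟨_, ⟨W, hW, rfl⟩, hag, by rw [hcf]; exact h⟩
      · rintro ⟨C', hC', h1, h2⟩
        have h3 := hd C' hC' _ ⟨W, hW, rfl⟩ (h1.trans hag.symm)
        rw [hcf] at h2 h3
        exact cast h3 h2
    by_cases h1 : A x = true
    · rw [h1]
      exact (decide_eq_true (key.1 h1)).symm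
    · rw [Bool.eq_false_iff.2 h1]
      exact (decide_eq_false fun h2 => h1 (key.2 h2)).symm
  · intro ans q hq1
    rw [hth] at hq1
    exact hσ _ _ hq1
  · intro C' hC'
    rw [hth] at hC' ⊢
    show decide _ = decide _
    rw [hC']

end Pool.Agent.PudSat
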