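import Mathlib
import Pool.Agent.PudSat.S2
import Pool.Agent.PudSat.S3
import Pool.Agent.PudSat.S4
import Pool.Agent.PudSat.S5
import Pool.Agent.PudSat.S6

set_option autoImplicit false

/-!
# S7: the theorem
-/

namespace Pool.Agent.PudSat

open N68a2faeb N793a5b8e N487b59b3 Pool.Agent.Helper22 Pool.Agent.PudOr Pool.Agent.PudTal
  Pool.Agent.PudOpt
open scoped Classical
open Pool.Agent.Helper20.Cons (Po)

/-- the functionals -/
noncomputable def S7Th : Unit ⊕ Unit ⊕ (Ver × CondS) ⊕ (ℕ × ℕ × Bool) → Act → List Bool →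
    Strat × (Oracle → Bool)
  | .inl _ => thS
  | .inr (.inl _) => PudTal.thK
  | .inr (.inr (.inl (e, c))) => thU e c
  | .inr (.inr (.inr (i, J, b))) => thT i J b

/-- the statements -/
def S7P (act : Act) : Ver ⊕ (Ver × Ver) ⊕ (FN × ℕ × ℕ × (Ver × Ver)) →
    List Bool → World → Prop
  | .inl e => PUq act e
  | .inr (.inl e) => PGood act e
  | .inr (.inr (f, i, J, e)) => PRed act f i J e

theorem S7_local {act : Act} (hs : Short act) : ∀ i x, ∃ n, ∀ W W', AgreeW n W W' →
    (S7P act i x W ↔ S7P act i x W') := by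
  rintro (e | e | ⟨f, i, J, e⟩) x
  · exact uq_local hs e x
  · exact good_local hs e x
  · exact red_local hs f i J e x

section

variable {ι : Type} {P : ι → List Bool → World → Prop} {Sn : ℕ → List Bool → World → Prop}
  {W : World}

theorem Gen.anti_le (g : Gen P Sn W) {m n : ℕ} (h : m ≤ n) (W' : World) (hW' : Comp (g.p n) W') :
    Comp (g.p m) W' := by
  induction n, h using Nat.le_induction with
  | base => exact hW'
  | succ n _ ih => exact ih (g.anti n W' hW')

theorem Gen.J_le (g : Gen P Sn W) {m n : ℕ} (h : m ≤ n) : (g.p m).J ≤ (g.p n).J := by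
  induction n, h using Nat.le_induction with
  | base => exact le_rfl
  | succ n _ ih => exact ih.trans (g.J_mono n)

theorem Gen.st_le (g : Gen P Sn W) {m n : ℕ} (h : m ≤ n) (e : ℕ) (he : e ∈ (g.p m).st) :
    e ∈ (g.p n).st := by
  induction n, h using Nat.le_induction with
  | base => exact he
  | succ n _ ih => exact g.st_sub n e ih

end

theorem main : ∃ X : Oracle,
    (∃ K ∈ NPo X, (∀ A ∈ NPo X, ReducibleRel X A K) ∧ ∃ h, IsPOptimalRel X K h) ∧
    (∀ A ∈ UPo X, A ∈ Po X) ∧
    ¬ ∃ L ∈ NPo X ∩ coNPo X, ∀ A ∈ NPo X ∩ coNPo X, ReducibleRel X A L := by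
  obtain ⟨act, hs, hD⟩ := exists_act S7Th
  choose D hD using hD
  obtain ⟨W, ⟨g⟩⟩ := exists_gen (S7P act) (S7_local hs) (PSn act) (fun e w => sn_local hs e w)
  have hC : Hat act W (hat act W) := hat_spec hs W
  refine ⟨Xo act (hat act W), ⟨Kc act (hat act W), ?_, Kc_hard act (hat act W), ?_⟩, ?_, ?_⟩
  · exact Kc_NP hs (hD (.inr (.inl ()))) _
  · refine popt hs (hD (.inl ())) hC fun e he => ?_
    obtain ⟨k, hk⟩ := g.on_all e he
    exact ⟨sc (g.p k).J, (g.comp k).st e hk⟩
  · rintro A ⟨p, M, hA, hu⟩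
    obtain ⟨k, hk⟩ := g.force (.inl (M, p)) fun x w w' hw hw' => hu x w w' hw hw'
    exact up_P hs (fun e he W' hW' w => g.on_sound k e he W' hW' w) (M, p) hk
      (hD (.inr (.inr (.inl ((M, p), g.p k))))) (g.comp k) hA
  · rintro ⟨L, ⟨⟨p₁, M₁, h₁⟩, ⟨p₀, M₀, h₀⟩⟩, hL⟩
    set e : Ver × Ver := ((M₁, p₁), (M₀, p₀)) with he
    have hacc1 : ∀ x, Acc act e.1 x (hat act W) ↔ L x = true := fun x => (h₁ x).symm
    have hacc0 : ∀ x, Acc act e.2 x (hat act W) ↔ ¬ L x = true := fun x => by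
      rw [← compl_true L x]
      exact (h₀ x).symm
    have hgood : ∀ x, S7P act (.inr (.inl e)) x W := fun x => by
      show Acc act e.1 x (hat act W) ↔ ¬ Acc act e.2 x (hat act W)
      rw [hacc1, hacc0, not_not]
    obtain ⟨k, hk⟩ := g.force _ hgood
    set i := (g.p k).m with hi
    set J₀ := (g.p (i + 1)).J with hJ₀
    have hT : tl i J₀ W.1 ∈ NPo (Xo act (hat act W)) ∩ coNPo (Xo act (hat act W)) := by
      refine tl_mem (D := fun b => D (.inr (.inr (.inr (i, J₀, b)))))
        (fun b => hD (.inr (.inr (.inr (i, J₀, b))))) hC fun j hj hf => ?_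
      refine (g.comp (i + 1)).one j hj ?_
      have := g.m_le (i + 1)
      omega
    obtain ⟨f, hf⟩ := hL _ hT
    have hred : ∀ x, S7P act (.inr (.inr (f, i, J₀, e))) x W := fun x => by
      refine ⟨fun h => ?_, fun h => ?_⟩
      · rw [hacc1, ← hf x]; exact h
      · rw [hacc0, ← hf x, h]; simp
    obtain ⟨k', hk'⟩ := g.force _ hred
    exact clash hs (c := g.p k) (c' := g.p (max k k'))
      (fun W' h => g.anti_le (le_max_left _ _) W' h) (g.J_le (le_max_left _ _))
      (fun e he => g.st_le (le_max_left _ _) e he)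
      (g.comp (max k k')) (g.on_sound (max k k')) (le_of_eq hi.symm) J₀ e hk f
      (fun W' h => hk' W' (g.anti_le (le_max_right _ _) W' h))

end Pool.Agent.PudSat
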